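import Pool.Agent.R327.SIMain

/-!
Common lemmas for the final statements.
-/

set_option autoImplicit false

namespace Pool.Agent.R327.SI

open Finset
open Pool.Agent.TH705.DL (ph ph_norm ph_conj ph_eq Sep)

theorem supp_sum (lo X m d L : ℕ) (hlo : lo ≤ m) (hmX : m ≤ X) (hd : 1 ≤ d) (f : ℕ → ℂ)
    (hs : ∀ n ∈ Icc lo X, f n ≠ 0 → ∃ j < L, n = m + d * j) :
    ∑ n ∈ Icc lo X, f n = ∑ n ∈ AP m d (min L ((X - m) / d + 1)), f n := by
  symm
  apply sum_subset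
  · intro n hn
    obtain ⟨j, hj, rfl⟩ := mem_AP.1 hn
    rw [lt_min_iff] at hj
    have h1 : j ≤ (X - m) / d := by omega
    have h2 : d * j ≤ X - m := (Nat.mul_le_mul_left d h1).trans (Nat.mul_div_le _ _)
    rw [mem_Icc]
    constructor <;> omega
  · intro n hn hnP
    by_contra hne
    obtain ⟨j, hj, rfl⟩ := hs n hn hne
    apply hnP
    rw [mem_AP]
    refine ⟨j, ?_, rfl⟩
    rw [lt_min_iff]
    refine ⟨hj, ?_⟩
    rw [mem_Icc] at hn
    have : j ≤ (X - m) / d := by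
      rw [Nat.le_div_iff_mul_le (by omega), mul_comm]
      omega
    omega

theorem supp_len (X Y m d L : ℕ) (hmX : m ≤ X) (hXY : X ≤ Y) :
    m + d * (min L ((X - m) / d + 1)) ≤ Y + d := by
  have h1 : d * (min L ((X - m) / d + 1)) ≤ d * ((X - m) / d + 1) := Nat.mul_le_mul_left d (min_le_right _ _)
  have h2 : d * ((X - m) / d + 1) = d * ((X - m) / d) + d := by ring
  have h3 := Nat.mul_div_le (X - m) d
  omega

/-- powers of the logarithm -/
theorem lg_pow (p ε : ℝ) (hp : 0 < p) (hε : 0 < ε) : ∃ C : ℝ, 1 ≤ C ∧ ∀ N : ℕ, 1 ≤ N →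
    (1 + Real.log (2 * N)) ^ p ≤ C * (N : ℝ) ^ ε := by
  have hs : 0 < ε / p := by positivity
  refine ⟨(1 + 1 / (ε / p)) ^ p * 2 ^ ε, ?_, ?_⟩
  · have h1 : (1 : ℝ) ≤ (1 + 1 / (ε / p)) ^ p := by
      apply Real.one_le_rpow _ hp.le
      have : 0 < 1 / (ε / p) := by positivity
      linarith
    have h2 : (1 : ℝ) ≤ 2 ^ ε := Real.one_le_rpow (by norm_num) hε.le
    nlinarith
  · intro N hN
    have hN1 : (1 : ℝ) ≤ N := by exact_mod_cast hN
    have hN0 : (0 : ℝ) < N := by linarith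
    have hlog0 : 0 ≤ Real.log (2 * (N : ℝ)) := Real.log_nonneg (by linarith)
    have h1 := lg_le hs hN
    calc (1 + Real.log (2 * N)) ^ p ≤ ((1 + 1 / (ε / p)) * (2 * (N : ℝ)) ^ (ε / p)) ^ p := by
          apply Real.rpow_le_rpow (by linarith) h1 hp.le
      _ = (1 + 1 / (ε / p)) ^ p * (2 * (N : ℝ)) ^ ε := by
          rw [Real.mul_rpow (by positivity) (by positivity), ← Real.rpow_mul (by positivity)]
          congr 2
          field_simp
      _ = _ := by rw [Real.mul_rpow (by norm_num) hN0.le]; ring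

theorem lg_sq (ε : ℝ) (hε : 0 < ε) : ∃ C : ℝ, 1 ≤ C ∧ ∀ N : ℕ, 1 ≤ N →
    (1 + Real.log (2 * N)) ^ 2 ≤ C * (N : ℝ) ^ ε := by
  obtain ⟨C, hC, h⟩ := lg_pow 2 ε (by norm_num) hε
  refine ⟨C, hC, fun N hN => ?_⟩
  have := h N hN
  rwa [Real.rpow_two] at this

/-- for a given positive exponent and large `N` -/
theorem small_or (K δ : ℝ) (hK : 1 ≤ K) (hδ : 0 < δ) : ∃ N0 : ℝ, 1 ≤ N0 ∧ ∀ N : ℕ, 1 ≤ N →
    (N : ℝ) ≤ N0 ∨ K * ((1 + Real.log (2 * N)) ^ 2 * N) ≤ (N : ℝ) ^ (1 + δ) := by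
  obtain ⟨C, hC, h⟩ := lg_sq (δ / 2) (by positivity)
  refine ⟨(K * C) ^ (2 / δ), Real.one_le_rpow (by nlinarith) (by positivity), ?_⟩
  intro N hN
  have hN1 : (1 : ℝ) ≤ N := by exact_mod_cast hN
  have hN0 : (0 : ℝ) < N := by linarith
  rcases le_or_gt (N : ℝ) ((K * C) ^ (2 / δ)) with h1 | h1
  · left; exact h1
  · right
    have h2 : K * C ≤ (N : ℝ) ^ (δ / 2) := by
      have h3 : ((K * C) ^ (2 / δ)) ^ (δ / 2) ≤ (N : ℝ) ^ (δ / 2) :=
        Real.rpow_le_rpow (by positivity) h1.le (by positivity)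
      rw [← Real.rpow_mul (by positivity)] at h3
      have h4 : 2 / δ * (δ / 2) = 1 := by field_simp
      rwa [h4, Real.rpow_one] at h3
    calc K * ((1 + Real.log (2 * N)) ^ 2 * N) ≤ K * ((C * (N : ℝ) ^ (δ / 2)) * N) := by
          have := h N hN
          gcongr
      _ = (K * C) * ((N : ℝ) ^ (δ / 2) * N) := by ring
      _ ≤ (N : ℝ) ^ (δ / 2) * ((N : ℝ) ^ (δ / 2) * N) := by gcongr
      _ = (N : ℝ) ^ (1 + δ) := by
          have e1 : (N : ℝ) = (N : ℝ) ^ (1 : ℝ) := (Real.rpow_one _).symm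
          nth_rewrite 3 [e1]
          rw [← Real.rpow_add hN0, ← Real.rpow_add hN0]
          congr 1
          ring

end Pool.Agent.R327.SI
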