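import Mathlib
import Pool.Agent.R327.SIFin

set_option autoImplicit false

/-!
Large values for supports with a small kernel (MP_ecd12e_nt): common lemmas.
-/

namespace Pool.Agent.R327.SI.Ecd

open Finset

/-- `D(t) = ∑_{n=N}^{2N} b_n n^{it}` -/
noncomputable def D (N : ℕ) (b : ℕ → ℂ) (t : ℝ) : ℂ :=
  ∑ n ∈ Icc N (2 * N), b n * Complex.exp (Complex.I * (t : ℂ) * (Real.log (n : ℝ) : ℂ))

/-- the large value estimate without loss, for coefficients `b` and `T` -/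
def NoLoss (N : ℕ) (T C : ℝ) (b : ℕ → ℂ) : Prop :=
  ∀ (W : Finset ℝ) (V : ℝ), (∀ t ∈ W, 0 ≤ t ∧ t ≤ T) → (∀ t ∈ W, ∀ u ∈ W, t ≠ u → 1 ≤ |t - u|) →
    0 < V → C * (1 + Real.log N) ^ 2 * N ≤ V ^ 2 → (∀ t ∈ W, V ≤ ‖D N b t‖) →
      (W.card : ℝ) ≤ C * (N : ℝ) ^ 2 / V ^ 2

open Pool.Agent.R327.SI in
theorem key (κ C0 : ℝ) (hκ0 : 0 ≤ κ) (hκ : κ ≤ 1 / 18) (hC0 : 1 ≤ C0) (N m d L : ℕ) (T : ℝ)
    (hN : 1 ≤ N) (hNm : N ≤ m) (hd : 1 ≤ d)
    (hG : m ≤ 2 * N → Good N (AP m d (min L ((2 * N - m) / d + 1))) κ T C0) (b : ℕ → ℂ)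
    (hb : ∀ n, ‖b n‖ ≤ 1) (hs : ∀ n ∈ Icc N (2 * N), b n ≠ 0 → ∃ j < L, n = m + d * j) :
    NoLoss N T (2400000 * C0) b := by
  intro W V hW hsep hV hVN hD
  have hN1 : (1 : ℝ) ≤ N := by exact_mod_cast hN
  have hlog0 : 0 ≤ Real.log (N : ℝ) := Real.log_nonneg hN1
  rcases Nat.lt_or_ge (2 * N) m with hm | hm
  · have hz : ∀ n ∈ Icc N (2 * N), b n = 0 := by
      intro n hn
      by_contra hne
      obtain ⟨j, _, rfl⟩ := hs n hn hne
      rw [mem_Icc] at hn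
      omega
    have hW0 : W = ∅ := by
      rw [Finset.eq_empty_iff_forall_notMem]
      intro t ht
      have h1 := hD t ht
      unfold D at h1
      rw [sum_congr rfl (fun n hn => by rw [hz n hn, zero_mul])] at h1
      simp only [sum_const_zero, norm_zero] at h1
      linarith
    rw [hW0]
    simp only [card_empty, Nat.cast_zero]
    positivity
  have hsum : ∀ t : ℝ, D N b t = ∑ n ∈ AP m d (min L ((2 * N - m) / d + 1)),
      b n * Pool.Agent.TH705.DL.ph t n := by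
    intro t
    exact supp_sum N (2 * N) m d L hNm hm hd (fun n => b n * Pool.Agent.TH705.DL.ph t n)
      (fun n hn hne => hs n hn (left_ne_zero_of_mul hne))
  have hlg : 1 + Real.log (2 * (N : ℝ)) ≤ 2 * (1 + Real.log N) := by
    rw [Real.log_mul (by norm_num) (by positivity)]
    have := Real.log_two_lt_d9
    linarith
  have hlg0 : 0 ≤ 1 + Real.log (2 * (N : ℝ)) := by
    have := Real.log_nonneg (x := 2 * (N : ℝ)) (by linarith)
    linarith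
  have h := (largeV hN hκ0 hκ hC0 (hG hm) W hsep 0 (fun t ht => by simpa using hW t ht) b hb V hV
    (by
      refine le_trans ?_ hVN
      calc 600000 * C0 * ((1 + Real.log (2 * N)) ^ 2 * N) ≤
            600000 * C0 * ((2 * (1 + Real.log N)) ^ 2 * N) := by gcongr
        _ = _ := by ring)
    (fun t ht => by rw [← hsum t]; exact hD t ht)).2
  refine h.trans ?_
  rw [← mul_div_assoc]
  have : 600000 * C0 * (N : ℝ) ^ 2 ≤ 2400000 * C0 * (N : ℝ) ^ 2 := by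
    have h1 : 0 ≤ C0 * (N : ℝ) ^ 2 := by positivity
    nlinarith
  gcongr

/-- from `NoLoss` to the form of Q1 -/
theorem form (K A σ ε : ℝ) (hK : 1 ≤ K) (hA : 0 ≤ A) (hσ : 1 / 2 < σ) (hε : 0 < ε) : ∃ C : ℝ,
    ∀ (N : ℕ) (T : ℝ) (b : ℕ → ℂ), 1 ≤ N → T ≤ (N : ℝ) ^ A → NoLoss N T K b →
      ∀ W : Finset ℝ, (∀ t ∈ W, 0 ≤ t ∧ t ≤ T) → (∀ t ∈ W, ∀ u ∈ W, t ≠ u → 1 ≤ |t - u|) →
        (∀ t ∈ W, (N : ℝ) ^ σ < ‖D N b t‖) → (W.card : ℝ) ≤ C * (N : ℝ) ^ (2 - 2 * σ + ε) := by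
  obtain ⟨N0, hN0, h0⟩ := Pool.Agent.R327.SI.small_or K (2 * σ - 1) hK (by linarith)
  refine ⟨K + 2 * N0 ^ (A + 2 * σ), ?_⟩
  intro N T b hN hT hNL W hW hsep hD
  have hN1 : (1 : ℝ) ≤ N := by exact_mod_cast hN
  have hNp : (0 : ℝ) < N := by linarith
  have hN00 : 0 < N0 := by linarith
  rcases h0 N hN with h1 | h1
  · rcases W.eq_empty_or_nonempty with hWe | ⟨t0, ht0⟩
    · rw [hWe]
      simp only [card_empty, Nat.cast_zero]
      positivity
    have hT0 : 0 ≤ T := (hW t0 ht0).1.trans (hW t0 ht0).2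
    have hcard := Pool.Agent.R327.SI.card_sep W hsep 0 T hT0 hW
    have h2 : (N : ℝ) ^ A ≤ N0 ^ A := Real.rpow_le_rpow hNp.le h1 hA
    have h3 : (1 : ℝ) ≤ N0 ^ A := Real.one_le_rpow hN0 hA
    have h4 : (W.card : ℝ) ≤ 2 * N0 ^ A := by linarith
    have h5 : N0 ^ (-(2 * σ)) ≤ (N : ℝ) ^ (2 - 2 * σ + ε) := by
      calc N0 ^ (-(2 * σ)) ≤ (N : ℝ) ^ (-(2 * σ)) :=
            Real.rpow_le_rpow_of_nonpos hNp h1 (by linarith)
        _ ≤ _ := Real.rpow_le_rpow_of_exponent_le hN1 (by linarith)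
    calc (W.card : ℝ) ≤ 2 * N0 ^ A := h4
      _ = 2 * N0 ^ (A + 2 * σ) * N0 ^ (-(2 * σ)) := by
          rw [mul_assoc, ← Real.rpow_add hN00]
          congr 2
          ring
      _ ≤ 2 * N0 ^ (A + 2 * σ) * (N : ℝ) ^ (2 - 2 * σ + ε) := by gcongr
      _ ≤ (K + 2 * N0 ^ (A + 2 * σ)) * (N : ℝ) ^ (2 - 2 * σ + ε) := by
          have : 0 ≤ K := by linarith
          gcongr
          linarith
  · have hV : (0 : ℝ) < (N : ℝ) ^ σ := by positivity
    have hsq : ((N : ℝ) ^ σ) ^ 2 = (N : ℝ) ^ (2 * σ) := by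
      rw [← Real.rpow_natCast, ← Real.rpow_mul hNp.le]
      congr 1
      push_cast
      ring
    have h2 := hNL W ((N : ℝ) ^ σ) hW hsep hV (by
      rw [hsq]
      rw [show (1 + (2 * σ - 1) : ℝ) = 2 * σ by ring] at h1
      refine le_trans ?_ h1
      have hl1 : 0 ≤ Real.log (N : ℝ) := Real.log_nonneg hN1
      have hl2 : Real.log (N : ℝ) ≤ Real.log (2 * N) := Real.log_le_log hNp (by linarith)
      calc K * (1 + Real.log N) ^ 2 * N = K * ((1 + Real.log N) ^ 2 * N) := by ring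
        _ ≤ _ := by gcongr) (fun t ht => (hD t ht).le)
    refine h2.trans ?_
    rw [hsq]
    calc K * (N : ℝ) ^ 2 / (N : ℝ) ^ (2 * σ) = K * (N : ℝ) ^ (2 - 2 * σ) := by
          rw [Real.rpow_sub hNp, Real.rpow_two]
          ring
      _ ≤ (K + 2 * N0 ^ (A + 2 * σ)) * (N : ℝ) ^ (2 - 2 * σ + ε) := by
          have h3 : 0 ≤ 2 * N0 ^ (A + 2 * σ) := by positivity
          have h4 : (N : ℝ) ^ (2 - 2 * σ) ≤ (N : ℝ) ^ (2 - 2 * σ + ε) :=
            Real.rpow_le_rpow_of_exponent_le hN1 (by linarith)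
          apply mul_le_mul _ h4 (by positivity) (by positivity)
          linarith

end Pool.Agent.R327.SI.Ecd
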