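import Mathlib

set_option autoImplicit false

/-!
# The parity of a double Lambert series: the combinatorial identity

For `n = 3 mod 4` the sum of `χ(d) (-1)^k` over the solutions of `m d + 2 i k = n` in positive integers
with `m, d` odd and `k > d` vanishes, `χ(d) = (-1)^((d-1)/2)`.
-/

namespace Pool.Agent.R327.Lambert

open Finset

/-- The solutions of `m d + 2 i k = n` in positive integers with `m`, `d` odd. -/
def Q (n : ℕ) : Finset (ℕ × ℕ × ℕ × ℕ) :=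
  ((range (n+1)) ×ˢ (range (n+1)) ×ˢ (range (n+1)) ×ˢ (range (n+1))).filter
    (fun x => x.1 * x.2.1 + 2 * x.2.2.1 * x.2.2.2 = n ∧ x.1 % 2 = 1 ∧ x.2.1 % 2 = 1 ∧
      1 ≤ x.2.2.1 ∧ 1 ≤ x.2.2.2)

theorem mem_Q (n m d i k : ℕ) : (m, d, i, k) ∈ Q n ↔
    m * d + 2 * i * k = n ∧ m % 2 = 1 ∧ d % 2 = 1 ∧ 1 ≤ i ∧ 1 ≤ k := by
  unfold Q
  rw [mem_filter]
  constructor
  · intro h
    exact h.2
  · intro h
    refine ⟨?_, h⟩
    obtain ⟨h1, h2, h3, h4, h5⟩ := h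
    have hm : 1 ≤ m := by omega
    have hd : 1 ≤ d := by omega
    have e1 : m ≤ m * d := Nat.le_mul_of_pos_right m hd
    have e2 : d ≤ m * d := Nat.le_mul_of_pos_left d hm
    have e3 : i ≤ i * k := Nat.le_mul_of_pos_right i h5
    have e4 : k ≤ i * k := Nat.le_mul_of_pos_left k h4
    have e5 : 2 * i * k = 2 * (i * k) := by ring
    simp only [mem_product, mem_range]
    refine ⟨?_, ?_, ?_, ?_⟩ <;> omega

/-- `χ(d) = (-1)^((d-1)/2)` for odd `d`. -/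
def chi (d : ℕ) : ℤ := (-1) ^ (d / 2)

theorem chi_mul {n m d i k : ℕ} (hn : n % 4 = 3) (h : (m, d, i, k) ∈ Q n) :
    chi m = -((-1) ^ (i * k) * chi d) := by
  rw [mem_Q] at h
  obtain ⟨h1, h2, h3, -, -⟩ := h
  obtain ⟨u, hu⟩ : ∃ u, m = 2 * u + 1 := ⟨m / 2, by omega⟩
  obtain ⟨v, hv⟩ : ∃ v, d = 2 * v + 1 := ⟨d / 2, by omega⟩
  have hm : m / 2 = u := by omega
  have hd : d / 2 = v := by omega
  unfold chi
  rw [hm, hd]
  have h5 : (u + v + i * k) % 2 = 1 := by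
    rw [hu, hv] at h1
    have h6 : (2 * u + 1) * (2 * v + 1) + 2 * i * k = 4 * (u * v) + 2 * (u + v + i * k) + 1 := by ring
    rw [h6] at h1
    omega
  have h7 : (-1 : ℤ) ^ (u + v + i * k) = -1 := Odd.neg_one_pow (Nat.odd_iff.2 h5)
  have h8 : ((-1 : ℤ) ^ v) ^ 2 = 1 := by rw [← pow_mul, mul_comm, pow_mul]; simp
  have h9 : ((-1 : ℤ) ^ (i * k)) ^ 2 = 1 := by rw [← pow_mul, mul_comm, pow_mul]; simp
  rw [pow_add, pow_add] at h7
  calc (-1 : ℤ) ^ u = (-1) ^ u * (((-1 : ℤ) ^ v) ^ 2 * ((-1 : ℤ) ^ (i * k)) ^ 2) := by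
        rw [h8, h9]; ring
    _ = ((-1) ^ u * (-1) ^ v * (-1) ^ (i * k)) * ((-1) ^ v * (-1) ^ (i * k)) := by ring
    _ = _ := by rw [h7]; ring

theorem chi_add (a j : ℕ) (ha : a % 2 = 1) : chi (a + 2 * j) = (-1) ^ j * chi a := by
  unfold chi
  have : (a + 2 * j) / 2 = j + a / 2 := by omega
  rw [this, pow_add]

/-- (1) exchange `i` and `k` -/
theorem swap_ik (n : ℕ) :
    ∑ x ∈ (Q n).filter (fun x => x.2.1 < x.2.2.2), chi x.2.1 * (-1) ^ x.2.2.2 =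
      ∑ x ∈ (Q n).filter (fun x => x.2.1 < x.2.2.1), chi x.2.1 * (-1) ^ x.2.2.1 := by
  refine sum_nbij' (fun x => (x.1, x.2.1, x.2.2.2, x.2.2.1)) (fun x => (x.1, x.2.1, x.2.2.2, x.2.2.1))
    ?_ ?_ ?_ ?_ ?_
  · rintro ⟨m, d, i, k⟩ hx
    simp only [mem_filter, mem_Q] at hx ⊢
    obtain ⟨⟨h1, h2, h3, h4, h5⟩, h6⟩ := hx
    exact ⟨⟨by rw [← h1]; ring, h2, h3, h5, h4⟩, h6⟩
  · rintro ⟨m, d, i, k⟩ hx
    simp only [mem_filter, mem_Q] at hx ⊢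
    obtain ⟨⟨h1, h2, h3, h4, h5⟩, h6⟩ := hx
    exact ⟨⟨by rw [← h1]; ring, h2, h3, h5, h4⟩, h6⟩
  · rintro ⟨m, d, i, k⟩ _
    rfl
  · rintro ⟨m, d, i, k⟩ _
    rfl
  · rintro ⟨m, d, i, k⟩ _
    rfl

/-- (2) for even `i` the sum of `χ(d)` vanishes -/
theorem even_total (n : ℕ) (hn : n % 4 = 3) :
    ∑ x ∈ (Q n).filter (fun x => x.2.2.1 % 2 = 0), chi x.2.1 = 0 := by
  have h1 : ∑ x ∈ (Q n).filter (fun x => x.2.2.1 % 2 = 0), chi x.2.1 =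
      ∑ x ∈ (Q n).filter (fun x => x.2.2.1 % 2 = 0), chi x.1 := by
    refine sum_nbij' (fun x => (x.2.1, x.1, x.2.2.1, x.2.2.2)) (fun x => (x.2.1, x.1, x.2.2.1, x.2.2.2))
      ?_ ?_ ?_ ?_ ?_
    · rintro ⟨m, d, i, k⟩ hx
      simp only [mem_filter, mem_Q] at hx ⊢
      obtain ⟨⟨h1, h2, h3, h4, h5⟩, h6⟩ := hx
      exact ⟨⟨by rw [← h1]; ring, h3, h2, h4, h5⟩, h6⟩
    · rintro ⟨m, d, i, k⟩ hx
      simp only [mem_filter, mem_Q] at hx ⊢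
      obtain ⟨⟨h1, h2, h3, h4, h5⟩, h6⟩ := hx
      exact ⟨⟨by rw [← h1]; ring, h3, h2, h4, h5⟩, h6⟩
    · rintro ⟨m, d, i, k⟩ _
      rfl
    · rintro ⟨m, d, i, k⟩ _
      rfl
    · rintro ⟨m, d, i, k⟩ _
      rfl
  have h2 : ∑ x ∈ (Q n).filter (fun x => x.2.2.1 % 2 = 0), chi x.1 =
      -∑ x ∈ (Q n).filter (fun x => x.2.2.1 % 2 = 0), chi x.2.1 := by
    rw [← sum_neg_distrib]
    apply sum_congr rfl
    rintro ⟨m, d, i, k⟩ hx
    rw [mem_filter] at hx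
    have h3 := chi_mul hn hx.1
    have h4 : (-1 : ℤ) ^ (i * k) = 1 := by
      apply Even.neg_one_pow
      exact (Nat.even_iff.2 hx.2).mul_right k
    simp only
    rw [h3, h4]
    ring
  linarith

/-- (3) the bijection `(m, d, i, k) ↦ (d - i, m, m + 2 k, i / 2)` -/
theorem even_lt (n : ℕ) (hn : n % 4 = 3) :
    ∑ x ∈ (Q n).filter (fun x => x.2.2.1 % 2 = 0 ∧ x.2.2.1 < x.2.1), chi x.2.1 =
      -∑ x ∈ (Q n).filter (fun x => x.2.2.1 % 2 = 1 ∧ x.2.1 < x.2.2.1), chi x.2.1 := by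
  rw [← sum_neg_distrib]
  refine sum_nbij' (fun x => (x.2.1 - x.2.2.1, x.1, x.1 + 2 * x.2.2.2, x.2.2.1 / 2))
    (fun x => (x.2.1, x.1 + 2 * x.2.2.2, 2 * x.2.2.2, (x.2.2.1 - x.2.1) / 2)) ?_ ?_ ?_ ?_ ?_
  · rintro ⟨m, d, i, k⟩ hx
    simp only [mem_filter, mem_Q] at hx ⊢
    obtain ⟨⟨h1, h2, h3, h4, h5⟩, h6, h7⟩ := hx
    obtain ⟨j, rfl⟩ : ∃ j, i = 2 * j := ⟨i / 2, by omega⟩
    obtain ⟨s, rfl⟩ : ∃ s, d = 2 * j + s := ⟨d - 2 * j, by omega⟩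
    have e1 : 2 * j + s - 2 * j = s := by omega
    have e2 : 2 * j / 2 = j := by omega
    rw [e1, e2]
    refine ⟨⟨?_, by omega, h2, by omega, by omega⟩, by omega, by omega⟩
    rw [← h1]
    ring
  · rintro ⟨m, d, i, k⟩ hx
    simp only [mem_filter, mem_Q] at hx ⊢
    obtain ⟨⟨h1, h2, h3, h4, h5⟩, h6, h7⟩ := hx
    obtain ⟨j, rfl⟩ : ∃ j, i = d + 2 * j := ⟨(i - d) / 2, by omega⟩
    have e1 : (d + 2 * j - d) / 2 = j := by omega
    rw [e1]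
    refine ⟨⟨?_, by omega, by omega, by omega, by omega⟩, by omega, by omega⟩
    rw [← h1]
    ring
  · rintro ⟨m, d, i, k⟩ hx
    simp only [mem_filter, mem_Q] at hx ⊢
    obtain ⟨⟨h1, h2, h3, h4, h5⟩, h6, h7⟩ := hx
    simp only [Prod.mk.injEq]
    refine ⟨trivial, ?_, ?_, ?_⟩ <;> omega
  · rintro ⟨m, d, i, k⟩ hx
    simp only [mem_filter, mem_Q] at hx ⊢
    obtain ⟨⟨h1, h2, h3, h4, h5⟩, h6, h7⟩ := hx
    simp only [Prod.mk.injEq]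
    refine ⟨?_, trivial, ?_, ?_⟩ <;> omega
  · rintro ⟨m, d, i, k⟩ hx
    have hx' := hx
    simp only [mem_filter, mem_Q] at hx
    obtain ⟨⟨h1, h2, h3, h4, h5⟩, h6, h7⟩ := hx
    obtain ⟨j, rfl⟩ : ∃ j, i = 2 * j := ⟨i / 2, by omega⟩
    obtain ⟨s, rfl⟩ : ∃ s, d = s + 2 * j := ⟨d - 2 * j, by omega⟩
    have hmem : (s, m, m + 2 * k, j) ∈ Q n := by
      rw [mem_Q]
      refine ⟨?_, by omega, h2, by omega, by omega⟩
      rw [← h1]
      ring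
    have h8 := chi_mul hn hmem
    have h9 : (-1 : ℤ) ^ ((m + 2 * k) * j) = (-1) ^ j := by
      rw [pow_mul]
      congr 1
      apply Odd.neg_one_pow
      rw [Nat.odd_iff]
      omega
    have h10 : ((-1 : ℤ) ^ j) ^ 2 = 1 := by rw [← pow_mul, mul_comm, pow_mul]; simp
    simp only
    rw [chi_add s j (by omega), h8, h9]
    calc (-1 : ℤ) ^ j * -((-1) ^ j * chi m) = -(((-1) ^ j) ^ 2 * chi m) := by ring
      _ = -chi m := by rw [h10]; ring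

/-- The combinatorial identity. -/
theorem main (n : ℕ) (hn : n % 4 = 3) :
    ∑ x ∈ (Q n).filter (fun x => x.2.1 < x.2.2.2), chi x.2.1 * (-1) ^ x.2.2.2 = 0 := by
  rw [swap_ik]
  have h1 : ∑ x ∈ (Q n).filter (fun x => x.2.1 < x.2.2.1), chi x.2.1 * (-1) ^ x.2.2.1 =
      ∑ x ∈ (Q n).filter (fun x => x.2.2.1 % 2 = 0 ∧ x.2.1 < x.2.2.1), chi x.2.1 -
      ∑ x ∈ (Q n).filter (fun x => x.2.2.1 % 2 = 1 ∧ x.2.1 < x.2.2.1), chi x.2.1 := by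
    rw [sum_filter, sum_filter, sum_filter, ← sum_sub_distrib]
    apply sum_congr rfl
    rintro ⟨m, d, i, k⟩ _
    simp only
    by_cases h : d < i
    · rcases Nat.mod_two_eq_zero_or_one i with h2 | h2
      · have : (-1 : ℤ) ^ i = 1 := Even.neg_one_pow (Nat.even_iff.2 h2)
        simp [h, h2, this]
      · have : (-1 : ℤ) ^ i = -1 := Odd.neg_one_pow (Nat.odd_iff.2 h2)
        simp [h, h2, this]
    · simp [h]
  have h2 : ∑ x ∈ (Q n).filter (fun x => x.2.2.1 % 2 = 0), chi x.2.1 =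
      ∑ x ∈ (Q n).filter (fun x => x.2.2.1 % 2 = 0 ∧ x.2.1 < x.2.2.1), chi x.2.1 +
      ∑ x ∈ (Q n).filter (fun x => x.2.2.1 % 2 = 0 ∧ x.2.2.1 < x.2.1), chi x.2.1 := by
    rw [sum_filter, sum_filter, sum_filter, ← sum_add_distrib]
    apply sum_congr rfl
    rintro ⟨m, d, i, k⟩ hx
    rw [mem_Q] at hx
    obtain ⟨-, -, h3, -, -⟩ := hx
    simp only
    rcases Nat.mod_two_eq_zero_or_one i with h2 | h2
    · rcases lt_trichotomy d i with h | h | h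
      · simp [h, h2, not_lt.2 h.le]
      · omega
      · simp [h, h2, not_lt.2 h.le]
    · simp [h2]
  have h3 := even_total n hn
  have h4 := even_lt n hn
  rw [h1]
  linarith

end Pool.Agent.R327.Lambert
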