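import Mathlib
import Pool.Agent.R327.SIFin

set_option autoImplicit false

/-!
Mean values for supports with a small kernel (MP_71ac24_nt): common lemmas.
-/

namespace Pool.Agent.R327.SI.S71

open Finset

/-- `D(t) = ∑_{n ≤ N} a_n n^{it}` -/
noncomputable def D (N : ℕ) (a : ℕ → ℂ) (t : ℝ) : ℂ :=
  ∑ n ∈ Icc 1 N, a n * Complex.exp (Complex.I * (t : ℂ) * (Real.log (n : ℝ) : ℂ))

open Pool.Agent.R327.SI in
theorem key (κ C0 ε : ℝ) (hκ0 : 0 ≤ κ) (hκ : κ ≤ 1 / 18) (hC0 : 1 ≤ C0) (hε : 0 < ε) :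
    ∃ C : ℝ, ∀ (N m d L : ℕ) (T : ℝ), 1 ≤ N → N ≤ 2 * m → 1 ≤ d →
      (m ≤ N → Good ((N + 1) / 2) (AP m d (min L ((N - m) / d + 1))) κ T C0) → ∀ a : ℕ → ℂ,
      (∀ n ∈ Icc 1 N, a n ≠ 0 → ∃ j < L, n = m + d * j) →
      ∀ S : Finset ℝ, (∀ t ∈ S, 0 ≤ t ∧ t ≤ T) → (∀ t ∈ S, ∀ u ∈ S, t ≠ u → 1 ≤ |t - u|) →
        (∑ t ∈ S, ‖D N a t‖ ^ 2 ≤ C * (N : ℝ) ^ ε *
          ((N : ℝ) ^ (5 / 4 + 5 * κ / 2) + S.card * (N : ℝ) ^ (1 / 2 - κ)) * ∑ n ∈ Icc 1 N, ‖a n‖ ^ 2) ∧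
        ((∀ n, ‖a n‖ ≤ 1) → ∑ t ∈ S, ‖D N a t‖ ^ 2 ≤ C * (N : ℝ) ^ ε * (N + S.card) * N) := by
  obtain ⟨C1, hC1, hl⟩ := lg_sq ε hε
  refine ⟨300000 * C0 * C1 * 2 ^ ε, ?_⟩
  intro N m d L T hN hNm hd hG a hs S hS hsep
  have hN1 : (1 : ℝ) ≤ N := by exact_mod_cast hN
  have hN0 : (0 : ℝ) < N := by linarith
  have h2e : (1 : ℝ) ≤ 2 ^ ε := Real.one_le_rpow (by norm_num) hε.le
  have hCpos : 0 < C1 := by linarith
  have hm1 : 1 ≤ m := by omega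
  rcases Nat.lt_or_ge N m with hm | hm
  · have hz : ∀ n ∈ Icc 1 N, a n = 0 := by
      intro n hn
      by_contra hne
      obtain ⟨j, _, rfl⟩ := hs n hn hne
      rw [mem_Icc] at hn
      omega
    have hD0 : ∀ t, D N a t = 0 := by
      intro t
      unfold D
      rw [sum_congr rfl (fun n hn => by rw [hz n hn, zero_mul])]
      simp
    have h0 : ∑ t ∈ S, ‖D N a t‖ ^ 2 = 0 := by
      apply sum_eq_zero
      intro t _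
      rw [hD0, norm_zero]
      norm_num
    rw [h0]
    have hG0 : 0 ≤ ∑ n ∈ Icc 1 N, ‖a n‖ ^ 2 := sum_nonneg fun _ _ => by positivity
    constructor
    · positivity
    · intro _
      positivity
  set N1 : ℕ := (N + 1) / 2 with hN1'
  have hN11 : 1 ≤ N1 := by omega
  have hN1N : N1 ≤ N := by omega
  have hN2N1 : N ≤ 2 * N1 := by omega
  have hN1r : (1 : ℝ) ≤ N1 := by exact_mod_cast hN11
  have hN1r0 : (0 : ℝ) < N1 := by linarith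
  have hN1Nr : (N1 : ℝ) ≤ N := by exact_mod_cast hN1N
  have hP := hG hm
  set P : Finset ℕ := AP m d (min L ((N - m) / d + 1)) with hPdef
  have hsum : ∀ t : ℝ, D N a t = ∑ n ∈ P, a n * Pool.Agent.TH705.DL.ph t n := by
    intro t
    exact supp_sum 1 N m d L hm1 hm hd (fun n => a n * Pool.Agent.TH705.DL.ph t n)
      (fun n hn hne => hs n hn (left_ne_zero_of_mul hne))
  have hsub : P ⊆ Icc 1 N := by
    intro n hn
    obtain ⟨j, hj, rfl⟩ := mem_AP.1 hn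
    rw [lt_min_iff] at hj
    have h1 : j ≤ (N - m) / d := by omega
    have h2 : d * j ≤ N - m := (Nat.mul_le_mul_left d h1).trans (Nat.mul_div_le _ _)
    rw [mem_Icc]
    constructor <;> omega
  have hGG : ∑ n ∈ P, ‖a n‖ ^ 2 ≤ ∑ n ∈ Icc 1 N, ‖a n‖ ^ 2 :=
    sum_le_sum_of_subset_of_nonneg hsub (fun _ _ _ => by positivity)
  have hlog : (1 + Real.log (2 * N1)) ^ 2 ≤ C1 * 2 ^ ε * (N : ℝ) ^ ε := by
    calc (1 + Real.log (2 * N1)) ^ 2 ≤ C1 * (N1 : ℝ) ^ ε := hl N1 hN11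
      _ ≤ C1 * (2 ^ ε * (N : ℝ) ^ ε) := by
          have h1 : (N1 : ℝ) ^ ε ≤ (N : ℝ) ^ ε := Real.rpow_le_rpow hN1r0.le hN1Nr hε.le
          have h2 : (N : ℝ) ^ ε ≤ 2 ^ ε * (N : ℝ) ^ ε := le_mul_of_one_le_left (by positivity) h2e
          have h3 := h1.trans h2
          gcongr
      _ = _ := by ring
  have hlog0 : 0 ≤ (1 + Real.log (2 * (N1 : ℝ))) ^ 2 := by positivity
  have hWT : ∀ t ∈ S, (0 : ℝ) ≤ t ∧ t ≤ 0 + T := fun t ht => by simpa using hS t ht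
  constructor
  · have h := base hN11 hκ0 (by linarith : (0:ℝ) ≤ C0) hP S hsep 0 hWT a
    have e1 : ∑ t ∈ S, ‖D N a t‖ ^ 2 = ∑ t ∈ S, ‖∑ n ∈ P, a n * Pool.Agent.TH705.DL.ph t n‖ ^ 2 := by
      apply sum_congr rfl
      intro t _
      rw [hsum t]
    rw [e1]
    refine h.trans ?_
    have e2 : (N1 : ℝ) ^ (5 / 4 + 5 * κ / 2) ≤ (N : ℝ) ^ (5 / 4 + 5 * κ / 2) :=
      Real.rpow_le_rpow hN1r0.le hN1Nr (by linarith)
    have e3 : (N1 : ℝ) ^ (1 / 2 - κ) ≤ (N : ℝ) ^ (1 / 2 - κ) :=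
      Real.rpow_le_rpow hN1r0.le hN1Nr (by linarith)
    have hG0 : 0 ≤ ∑ n ∈ P, ‖a n‖ ^ 2 := sum_nonneg fun _ _ => by positivity
    have hG0' : 0 ≤ ∑ n ∈ Icc 1 N, ‖a n‖ ^ 2 := sum_nonneg fun _ _ => by positivity
    calc (1 + Real.log (2 * N1)) ^ 2 *
          (20 * (N1 : ℝ) ^ (5 / 4 + 5 * κ / 2) + S.card * (C0 * (N1 : ℝ) ^ (1 / 2 - κ))) *
          ∑ n ∈ P, ‖a n‖ ^ 2
        ≤ (C1 * 2 ^ ε * (N : ℝ) ^ ε) *
          (20 * (N : ℝ) ^ (5 / 4 + 5 * κ / 2) + S.card * (C0 * (N : ℝ) ^ (1 / 2 - κ))) *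
          ∑ n ∈ Icc 1 N, ‖a n‖ ^ 2 := by gcongr
      _ ≤ (C1 * 2 ^ ε * (N : ℝ) ^ ε) *
          ((300000 * C0) * ((N : ℝ) ^ (5 / 4 + 5 * κ / 2) + S.card * (N : ℝ) ^ (1 / 2 - κ))) *
          ∑ n ∈ Icc 1 N, ‖a n‖ ^ 2 := by
          apply mul_le_mul_of_nonneg_right _ hG0'
          apply mul_le_mul_of_nonneg_left _ (by positivity)
          have a1 : 0 ≤ (N : ℝ) ^ (5 / 4 + 5 * κ / 2) := by positivity
          have a2 : 0 ≤ (S.card : ℝ) * (N : ℝ) ^ (1 / 2 - κ) := by positivity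
          nlinarith
      _ = _ := by ring
  · intro ha
    have h := base1 hN11 hκ0 hκ hC0 hP S hsep 0 hWT a ha
    have e1 : ∑ t ∈ S, ‖D N a t‖ ^ 2 = ∑ t ∈ S, ‖∑ n ∈ P, a n * Pool.Agent.TH705.DL.ph t n‖ ^ 2 := by
      apply sum_congr rfl
      intro t _
      rw [hsum t]
    rw [e1]
    refine h.trans ?_
    have hX : 1 ≤ C1 * 2 ^ ε * (N : ℝ) ^ ε := by
      have h3 : (1 : ℝ) ≤ (N : ℝ) ^ ε := Real.one_le_rpow hN1 hε.le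
      exact one_le_mul_of_one_le_of_one_le (one_le_mul_of_one_le_of_one_le hC1 h2e) h3
    calc 300000 * C0 * ((N1 : ℝ) ^ 2 + (1 + Real.log (2 * N1)) ^ 2 * (S.card * N1))
        ≤ 300000 * C0 * ((C1 * 2 ^ ε * (N : ℝ) ^ ε) * (N : ℝ) ^ 2 +
            (C1 * 2 ^ ε * (N : ℝ) ^ ε) * (S.card * N)) := by
          have a1 : (N1 : ℝ) ^ 2 ≤ (C1 * 2 ^ ε * (N : ℝ) ^ ε) * (N : ℝ) ^ 2 := by
            calc (N1 : ℝ) ^ 2 ≤ (N : ℝ) ^ 2 := by gcongr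
              _ ≤ _ := le_mul_of_one_le_left (by positivity) hX
          have a2 : (1 + Real.log (2 * N1)) ^ 2 * (S.card * N1) ≤
              (C1 * 2 ^ ε * (N : ℝ) ^ ε) * (S.card * (N : ℝ)) := by gcongr
          have a3 : (0 : ℝ) ≤ 300000 * C0 := by linarith
          exact mul_le_mul_of_nonneg_left (add_le_add a1 a2) a3
      _ = _ := by ring

end Pool.Agent.R327.SI.S71
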