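import Mathlib
import Pool.Agent.R327.SIFin

set_option autoImplicit false

/-!
Large values for supports with a small kernel (MP_a93a41_nt): common lemmas.
-/

namespace Pool.Agent.R327.SI.A9

open Finset

/-- `D(it) = ∑_{n ≤ N} a_n n^{-it}` -/
noncomputable def D (N : ℕ) (a : ℕ → ℂ) (t : ℝ) : ℂ :=
  ∑ n ∈ Icc 1 N, a n * Complex.exp (-(Complex.I * (t : ℂ) * (Real.log (n : ℝ) : ℂ)))

open Pool.Agent.R327.SI in
theorem key (κ C0 ε : ℝ) (hκ0 : 0 ≤ κ) (hκ : κ ≤ 1 / 18) (hC0 : 1 ≤ C0) (hε : 0 < ε) :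
    ∃ C : ℝ, 1 ≤ C ∧ ∀ (N m d L : ℕ) (T V : ℝ), 1 ≤ N → N ≤ 2 * m → 1 ≤ d → 1 ≤ T → 0 < V →
      N * T ^ ε ≤ V ^ 2 →
      (m ≤ N → T ≤ (N : ℝ) ^ (1 / ε) → Good ((N + 1) / 2) (AP m d (min L ((N - m) / d + 1))) κ T C0) →
      ∀ a : ℕ → ℂ, (∀ n, ‖a n‖ ≤ 1) →
      (∀ n ∈ Icc 1 N, a n ≠ 0 → ∃ j < L, n = m + d * j) →
      ∀ S : Finset ℝ, (∀ t ∈ S, 0 ≤ t ∧ t ≤ T) → (∀ t ∈ S, ∀ u ∈ S, t ≠ u → 1 ≤ |t - u|) →
        (∀ t ∈ S, V ≤ ‖D N a t‖) → (S.card : ℝ) ≤ C * ((N : ℝ) ^ 2 / V ^ 2 * T ^ ε) := by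
  obtain ⟨M0, hM0, hsm⟩ := small_or (600000 * C0) ε (by linarith) hε
  refine ⟨600000 * C0 + 2 * (2 * M0) ^ (1 / ε), ?_, ?_⟩
  · have : 0 ≤ 2 * (2 * M0) ^ (1 / ε) := by positivity
    linarith
  intro N m d L T V hN hNm hd hT hV hVN hG a ha hs S hS hsep hD
  have hN1 : (1 : ℝ) ≤ N := by exact_mod_cast hN
  have hN0 : (0 : ℝ) < N := by linarith
  have hT0 : 0 < T := by linarith
  have hTe : (1 : ℝ) ≤ T ^ ε := Real.one_le_rpow hT hε.le
  have hM00 : 0 < M0 := by linarith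
  have hB0 : 0 ≤ 2 * (2 * M0) ^ (1 / ε) := by positivity
  have hm1 : 1 ≤ m := by omega
  rcases S.eq_empty_or_nonempty with hSe | ⟨t0, ht0⟩
  · rw [hSe]
    simp only [card_empty, Nat.cast_zero]
    positivity
  -- conjugation
  set b : ℕ → ℂ := fun n => (starRingEnd ℂ) (a n) with hb
  have hb1 : ∀ n, ‖b n‖ ≤ 1 := by
    intro n
    rw [hb]
    simp only [RCLike.norm_conj]
    exact ha n
  have hconj : ∀ t : ℝ, ‖D N a t‖ = ‖∑ n ∈ Icc 1 N, b n * Pool.Agent.TH705.DL.ph t n‖ := by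
    intro t
    rw [← RCLike.norm_conj]
    congr 1
    unfold D
    rw [map_sum]
    apply sum_congr rfl
    intro n _
    rw [map_mul, ← Complex.exp_conj]
    congr 1
    unfold Pool.Agent.TH705.DL.ph
    congr 1
    rw [map_neg, map_mul, map_mul, Complex.conj_I, Complex.conj_ofReal, Complex.conj_ofReal]
    ring
  have hVN' : V ≤ N := by
    refine (hD t0 ht0).trans ?_
    rw [hconj]
    refine (norm_sum_le _ _).trans ?_
    calc ∑ n ∈ Icc 1 N, ‖b n * Pool.Agent.TH705.DL.ph t0 n‖ ≤ ∑ n ∈ Icc 1 N, (1 : ℝ) := by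
          apply sum_le_sum
          intro n _
          rw [norm_mul, Pool.Agent.TH705.DL.ph_norm, mul_one]
          exact hb1 n
      _ = N := by simp
  have hTN : T ≤ (N : ℝ) ^ (1 / ε) := by
    have h1 : T ^ ε ≤ N := by
      have h2 : (N : ℝ) * T ^ ε ≤ N * N := by
        refine hVN.trans ?_
        nlinarith
      exact le_of_mul_le_mul_left h2 hN0
    calc T = (T ^ ε) ^ (1 / ε) := by
          rw [← Real.rpow_mul hT0.le]
          have : ε * (1 / ε) = 1 := by field_simp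
          rw [this, Real.rpow_one]
      _ ≤ (N : ℝ) ^ (1 / ε) := Real.rpow_le_rpow (by positivity) h1 (by positivity)
  have hq1 : 1 ≤ (N : ℝ) ^ 2 / V ^ 2 * T ^ ε := by
    have : 1 ≤ (N : ℝ) ^ 2 / V ^ 2 := by
      rw [one_le_div (by positivity)]
      exact pow_le_pow_left₀ hV.le hVN' 2
    exact one_le_mul_of_one_le_of_one_le this hTe
  rcases Nat.lt_or_ge N m with hm | hm
  · exfalso
    have hz : ∀ n ∈ Icc 1 N, a n = 0 := by
      intro n hn
      by_contra hne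
      obtain ⟨j, _, rfl⟩ := hs n hn hne
      rw [mem_Icc] at hn
      omega
    have h1 := hD t0 ht0
    unfold D at h1
    rw [sum_congr rfl (fun n hn => by rw [hz n hn, zero_mul])] at h1
    simp only [sum_const_zero, norm_zero] at h1
    linarith
  set N1 : ℕ := (N + 1) / 2 with hN1'
  have hN11 : 1 ≤ N1 := by omega
  have hN1N : N1 ≤ N := by omega
  have hN2N1 : N ≤ 2 * N1 := by omega
  have hN1r : (1 : ℝ) ≤ N1 := by exact_mod_cast hN11
  have hN1r0 : (0 : ℝ) < N1 := by linarith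
  have hN1Nr : (N1 : ℝ) ≤ N := by exact_mod_cast hN1N
  have hP := hG hm hTN
  set P : Finset ℕ := AP m d (min L ((N - m) / d + 1)) with hPdef
  have hsum : ∀ t : ℝ, ‖D N a t‖ = ‖∑ n ∈ P, b n * Pool.Agent.TH705.DL.ph t n‖ := by
    intro t
    rw [hconj]
    congr 1
    refine supp_sum 1 N m d L hm1 hm hd (fun n => b n * Pool.Agent.TH705.DL.ph t n) ?_
    intro n hn hne
    apply hs n hn
    intro h0
    apply hne
    simp only [hb, h0, map_zero, zero_mul]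
  have hWT : ∀ t ∈ S, (0 : ℝ) ≤ t ∧ t ≤ 0 + T := fun t ht => by simpa using hS t ht
  rcases le_or_gt T N1 with hTc | hTc
  · have h := base0 hN11 hκ0 hκ hP hTc S hsep 0 hWT b hb1
    have h1 : (S.card : ℝ) * V ^ 2 ≤ 300000 * (N1 : ℝ) ^ 2 := by
      calc (S.card : ℝ) * V ^ 2 = ∑ t ∈ S, V ^ 2 := by simp
        _ ≤ ∑ t ∈ S, ‖∑ n ∈ P, b n * Pool.Agent.TH705.DL.ph t n‖ ^ 2 := by
          apply sum_le_sum
          intro t ht
          rw [← hsum]
          exact pow_le_pow_left₀ hV.le (hD t ht) 2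
        _ ≤ _ := h
    have h2 : (S.card : ℝ) ≤ 300000 * ((N : ℝ) ^ 2 / V ^ 2) := by
      rw [← mul_div_assoc, le_div_iff₀ (by positivity)]
      refine h1.trans ?_
      gcongr
    calc (S.card : ℝ) ≤ 300000 * ((N : ℝ) ^ 2 / V ^ 2) * 1 := by rw [mul_one]; exact h2
      _ ≤ (600000 * C0 + 2 * (2 * M0) ^ (1 / ε)) * ((N : ℝ) ^ 2 / V ^ 2) * T ^ ε := by
          gcongr
          linarith
      _ = _ := by ring
  · rcases hsm N1 hN11 with h1 | h1
    · have hcard := card_sep S hsep 0 T hT0.le hS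
      have h2 : T ≤ (2 * M0) ^ (1 / ε) := by
        refine hTN.trans (Real.rpow_le_rpow hN0.le ?_ (by positivity))
        have : (N : ℝ) ≤ 2 * N1 := by exact_mod_cast hN2N1
        linarith
      calc (S.card : ℝ) ≤ 2 * (2 * M0) ^ (1 / ε) := by linarith
        _ = 2 * (2 * M0) ^ (1 / ε) * 1 := by ring
        _ ≤ (600000 * C0 + 2 * (2 * M0) ^ (1 / ε)) * ((N : ℝ) ^ 2 / V ^ 2 * T ^ ε) := by
            have : 0 ≤ 600000 * C0 := by linarith
            apply mul_le_mul _ hq1 (by norm_num) (by positivity)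
            linarith
    · have h2 : 600000 * C0 * ((1 + Real.log (2 * N1)) ^ 2 * N1) ≤ V ^ 2 := by
        refine h1.trans (le_trans ?_ hVN)
        rw [Real.rpow_add hN1r0, Real.rpow_one]
        gcongr
      have h3 := (largeV hN11 hκ0 hκ hC0 hP S hsep 0 hWT b hb1 V hV h2
        (fun t ht => by rw [← hsum t]; exact hD t ht)).2
      calc (S.card : ℝ) ≤ 600000 * C0 * ((N1 : ℝ) ^ 2 / V ^ 2) := h3
        _ ≤ 600000 * C0 * ((N : ℝ) ^ 2 / V ^ 2) := by gcongr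
        _ = 600000 * C0 * ((N : ℝ) ^ 2 / V ^ 2) * 1 := by ring
        _ ≤ (600000 * C0 + 2 * (2 * M0) ^ (1 / ε)) * ((N : ℝ) ^ 2 / V ^ 2) * T ^ ε := by
            gcongr
            linarith
        _ = _ := by ring

end Pool.Agent.R327.SI.A9
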