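import Pool.Agent.R327.SILs

/-!
The kernel of a short interval and of a short arithmetic progression.
-/

set_option autoImplicit false

namespace Pool.Agent.R327.SI

open Finset
open Pool.Agent.H469R2.NK (e norm_e)
open Pool.Agent.H442R2.EHI (EL SL)
open Pool.Agent.TH705.DL (ph ph_norm ph_conj ph_eq)

theorem toSL (t : ℝ) (a d L : ℕ) (ha : 1 ≤ a) (hd : 1 ≤ d) :
    ‖∑ j ∈ range L, ph t (a + d * j)‖ = ‖SL (t / (2 * Real.pi)) ((a : ℝ) / d) L []‖ := by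
  have hd0 : (0 : ℝ) < d := by exact_mod_cast hd
  have ha0 : (0 : ℝ) < a := by exact_mod_cast ha
  have h : ∑ j ∈ range L, ph t (a + d * j) =
      Complex.exp (((t * Real.log d : ℝ) : ℂ) * Complex.I) *
        SL (t / (2 * Real.pi)) ((a : ℝ) / d) L [] := by
    unfold SL
    simp only [List.sum_nil, Nat.sub_zero, EL]
    rw [mul_sum]
    apply sum_congr rfl
    intro j _
    unfold e
    rw [ph_eq, ← Complex.exp_add]
    congr 1
    have h1 : Real.log ((a + d * j : ℕ) : ℝ) = Real.log d + Real.log ((a : ℝ) / d + j) := by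
      rw [← Real.log_mul (by positivity) (by positivity)]
      congr 1
      push_cast
      field_simp
    rw [h1]
    have h2 : 2 * Real.pi * (t / (2 * Real.pi) * Real.log ((a : ℝ) / d + j)) =
        t * Real.log ((a : ℝ) / d + j) := by
      field_simp
    rw [h2]
    push_cast
    ring
  rw [h, norm_mul, Complex.norm_exp_ofReal_mul_I, one_mul]

theorem ker_abs (t : ℝ) (a d L : ℕ) :
    ‖∑ j ∈ range L, ph t (a + d * j)‖ = ‖∑ j ∈ range L, ph |t| (a + d * j)‖ := by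
  rcases le_or_gt 0 t with h | h
  · rw [abs_of_nonneg h]
  · rw [abs_of_neg h, ← RCLike.norm_conj, map_sum]
    congr 1
    apply sum_congr rfl
    intro j _
    rw [ph_conj]

theorem ker_triv (t : ℝ) (a d L : ℕ) : ‖∑ j ∈ range L, ph t (a + d * j)‖ ≤ L := by
  refine (norm_sum_le _ _).trans ?_
  rw [sum_congr rfl (fun j _ => ph_norm t (a + d * j))]
  simp

/-- short intervals: `L ≤ 2 N^(5/9)`, `N^(10/9) ≤ |t| ≤ 4 N²` -/
theorem kerI : ∃ C : ℝ, 1 ≤ C ∧ ∀ N a L : ℕ, 1 ≤ N → N ≤ a → a + L ≤ 2 * N + 1 →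
    (L : ℝ) ≤ 2 * (N : ℝ) ^ (5 / 9 : ℝ) → ∀ t : ℝ, (N : ℝ) ^ (10 / 9 : ℝ) ≤ |t| → |t| ≤ 4 * (N : ℝ) ^ 2 →
    ‖∑ j ∈ range L, ph t (a + 1 * j)‖ ≤ C * (1 + Real.log (2 * N)) * (N : ℝ) ^ (4 / 9 : ℝ) := by
  have hC1 := CK_pos 1
  have hC2 := CK_pos 2
  refine ⟨56 * (CK 1 * CK 2), by nlinarith, ?_⟩
  intro N a L hN hNa haL hL t ht1 ht2
  have hN1 : (1 : ℝ) ≤ N := by exact_mod_cast hN
  have hN0 : (0 : ℝ) < N := by linarith
  obtain ⟨X, hX⟩ : ∃ X : ℝ, X = (N : ℝ) ^ (1 / 18 : ℝ) := ⟨_, rfl⟩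
  have hX1 : 1 ≤ X := by rw [hX]; exact Real.one_le_rpow hN1 (by norm_num)
  have hX0 : 0 < X := by linarith
  have hXp : ∀ k : ℕ, X ^ k = (N : ℝ) ^ ((k : ℝ) / 18) := by
    intro k
    rw [hX, ← Real.rpow_natCast, ← Real.rpow_mul hN0.le]
    congr 1; ring
  have e18 : (N : ℝ) = X ^ 18 := by rw [hXp]; norm_num
  have e10 : (N : ℝ) ^ (5 / 9 : ℝ) = X ^ 10 := by rw [hXp]; norm_num
  have e20 : (N : ℝ) ^ (10 / 9 : ℝ) = X ^ 20 := by rw [hXp]; norm_num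
  have e8 : (N : ℝ) ^ (4 / 9 : ℝ) = X ^ 8 := by rw [hXp]; norm_num
  rw [e8]
  rw [e10] at hL
  rw [e20] at ht1
  rw [show (4 : ℝ) * (N : ℝ) ^ 2 = 4 * X ^ 36 by rw [e18]; ring] at ht2
  rw [ker_abs]
  have hlogN : 0 ≤ Real.log (2 * N) := Real.log_nonneg (by linarith)
  set lg : ℝ := 1 + Real.log (2 * N) with hlg
  have hlg1 : 1 ≤ lg := by rw [hlg]; linarith
  rcases Nat.eq_zero_or_pos L with hL0 | hL1
  · rw [hL0]
    simp only [range_zero, sum_empty, norm_zero]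
    positivity
  have hL1' : (1 : ℝ) ≤ L := by exact_mod_cast hL1
  have hLp : (0 : ℝ) < L := by linarith
  rw [toSL |t| a 1 L (by omega) le_rfl]
  set Z : ℝ := |t| / (2 * Real.pi) with hZ
  have ht0 : 0 < |t| := lt_of_lt_of_le (by positivity) ht1
  have hpi := Real.pi_pos
  have hpi3 := Real.pi_gt_three
  have hpi4 := Real.pi_lt_d2
  have hZ0 : 0 < Z := by rw [hZ]; positivity
  have hZt : Z ≤ |t| := by
    rw [hZ, div_le_iff₀ (by positivity)]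
    nlinarith
  have hZt2 : |t| ≤ 7 * Z := by
    rw [hZ, ← mul_div_assoc, le_div_iff₀ (by positivity)]
    nlinarith
  have ha1 : (N : ℝ) ≤ a := by exact_mod_cast hNa
  have ha2 : (a : ℝ) ≤ 2 * X ^ 18 := by
    rw [← e18]
    have : a ≤ 2 * N := by omega
    exact_mod_cast this
  have ha1' : X ^ 18 ≤ (a : ℝ) := by rw [← e18]; exact ha1
  have ha0 : (0 : ℝ) < a := by linarith
  have huL : (a : ℝ) / (1 : ℕ) + L ≤ 3 * a := by
    rw [Nat.cast_one, div_one]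
    have h1 : a + L ≤ 3 * a := by omega
    exact_mod_cast h1
  have hu : (a : ℝ) ≤ (a : ℝ) / (1 : ℕ) := by rw [Nat.cast_one, div_one]
  set K : ℝ := ‖SL Z ((a : ℝ) / (1 : ℕ)) L []‖ with hK
  have hK0 : 0 ≤ K := norm_nonneg _
  have hlogL : 1 + Real.log L ≤ lg := by
    rw [hlg]
    have : Real.log L ≤ Real.log (2 * N) := by
      apply Real.log_le_log hLp
      have : L ≤ 2 * N := by omega
      exact_mod_cast this
    linarith
  have hlogL0 : 0 ≤ 1 + Real.log L := by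
    have := Real.log_nonneg hL1'
    linarith
  rcases le_or_gt |t| (X ^ 32) with hc | hc
  · -- second derivative test
    have h := test 1 le_rfl Z hZ0 a ((a : ℝ) / (1 : ℕ)) L (by omega) hL1 hu huL
    rw [← hK] at h
    have h2 : K ^ 2 ≤ CK 1 * lg * (34 * X ^ 16) := by
      have h3 : (K / L) ^ 2 * (L : ℝ) ^ 2 = K ^ 2 := by rw [div_pow]; field_simp
      rw [← h3]
      have h4 : (1 / (L : ℝ) + (Z / (a : ℝ) ^ (1 + 1)) ^ ((1 : ℝ) / (1 : ℕ)) +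
          (a : ℝ) ^ (1 + 1) / (Z * (L : ℝ) ^ (1 + 1))) * (L : ℝ) ^ 2 ≤ 34 * X ^ 16 := by
        rw [Nat.cast_one, div_one, Real.rpow_one]
        have a1 : (1 / (L : ℝ) + Z / (a : ℝ) ^ (1 + 1) +
          (a : ℝ) ^ (1 + 1) / (Z * (L : ℝ) ^ (1 + 1))) * (L : ℝ) ^ 2 =
          L + (L : ℝ) ^ 2 * (Z / (a : ℝ) ^ 2) + (a : ℝ) ^ 2 / Z := by
          field_simp
          ring
        rw [a1]
        have b1 : (L : ℝ) ≤ 2 * X ^ 16 := hL.trans (by
          have : X ^ 10 ≤ X ^ 16 := pow_le_pow_right₀ hX1 (by norm_num)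
          linarith)
        have b2 : (L : ℝ) ^ 2 * (Z / (a : ℝ) ^ 2) ≤ 4 * X ^ 16 := by
          calc (L : ℝ) ^ 2 * (Z / (a : ℝ) ^ 2) ≤ (2 * X ^ 10) ^ 2 * (X ^ 32 / (X ^ 18) ^ 2) := by
                have : Z ≤ X ^ 32 := hZt.trans hc
                gcongr
            _ = 4 * X ^ 16 := by field_simp; ring
        have b3 : (a : ℝ) ^ 2 / Z ≤ 28 * X ^ 16 := by
          rw [div_le_iff₀ hZ0]
          calc (a : ℝ) ^ 2 ≤ (2 * X ^ 18) ^ 2 := by gcongr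
            _ = 4 * X ^ 16 * X ^ 20 := by ring
            _ ≤ 4 * X ^ 16 * (7 * Z) := by
              have : X ^ 20 ≤ 7 * Z := ht1.trans hZt2
              gcongr
            _ = _ := by ring
        linarith
      calc (K / L) ^ 2 * (L : ℝ) ^ 2 ≤ (CK 1 * (1 + Real.log L) ^ 1 *
            (1 / (L : ℝ) + (Z / (a : ℝ) ^ (1 + 1)) ^ ((1 : ℝ) / (1 : ℕ)) +
              (a : ℝ) ^ (1 + 1) / (Z * (L : ℝ) ^ (1 + 1)))) * (L : ℝ) ^ 2 :=
            mul_le_mul_of_nonneg_right h (by positivity)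
        _ = (CK 1 * (1 + Real.log L)) * ((1 / (L : ℝ) + (Z / (a : ℝ) ^ (1 + 1)) ^ ((1 : ℝ) / (1 : ℕ)) +
              (a : ℝ) ^ (1 + 1) / (Z * (L : ℝ) ^ (1 + 1))) * (L : ℝ) ^ 2) := by ring
        _ ≤ (CK 1 * lg) * (34 * X ^ 16) := by
            apply mul_le_mul _ h4 (by positivity) (by positivity)
            gcongr
    apply le_of_pow_le_pow_left₀ (by norm_num : 2 ≠ 0) (by positivity)
    refine h2.trans ?_
    have c1 : CK 1 ≤ (CK 1 * CK 2) ^ 2 := by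
      have d1 : 1 ≤ CK 1 * CK 2 := by nlinarith
      have d2 : CK 1 ≤ CK 1 * CK 2 := by nlinarith
      nlinarith
    have c2 : lg ≤ lg ^ 2 := by nlinarith
    calc CK 1 * lg * (34 * X ^ 16) ≤ (CK 1 * CK 2) ^ 2 * lg ^ 2 * (56 ^ 2 * X ^ 16) := by
          gcongr
          norm_num
      _ = _ := by ring
  · -- third derivative test
    have h := test 2 (by norm_num) Z hZ0 a ((a : ℝ) / (1 : ℕ)) L (by omega) hL1 hu huL
    rw [← hK] at h
    have hZ32 : X ^ 32 ≤ 7 * Z := hc.le.trans hZt2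
    have h2 : K ^ 4 ≤ CK 2 * lg ^ 2 * (152 * X ^ 32) := by
      have h3 : (K / L) ^ (2 ^ 2) * (L : ℝ) ^ 4 = K ^ 4 := by
        rw [show (2 : ℕ) ^ 2 = 4 by norm_num, div_pow]; field_simp
      rw [← h3]
      have h4 : (1 / (L : ℝ) + (Z / (a : ℝ) ^ (2 + 1)) ^ ((1 : ℝ) / (2 : ℕ)) +
          (a : ℝ) ^ (2 + 1) / (Z * (L : ℝ) ^ (2 + 1))) * (L : ℝ) ^ 4 ≤ 152 * X ^ 32 := by
        have a0 : (Z / (a : ℝ) ^ (2 + 1)) ^ ((1 : ℝ) / (2 : ℕ)) ≤ 2 / X ^ 9 := by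
          have : Z / (a : ℝ) ^ (2 + 1) ≤ (2 / X ^ 9) ^ 2 := by
            rw [div_pow, div_le_div_iff₀ (by positivity) (by positivity)]
            calc Z * (X ^ 9) ^ 2 ≤ (4 * X ^ 36) * (X ^ 9) ^ 2 := by
                  have : Z ≤ 4 * X ^ 36 := hZt.trans ht2
                  gcongr
              _ = 2 ^ 2 * (X ^ 18) ^ (2 + 1) := by ring
              _ ≤ 2 ^ 2 * (a : ℝ) ^ (2 + 1) := by gcongr
          calc (Z / (a : ℝ) ^ (2 + 1)) ^ ((1 : ℝ) / (2 : ℕ)) ≤ ((2 / X ^ 9) ^ 2) ^ ((1 : ℝ) / (2 : ℕ)) := by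
                gcongr
            _ = 2 / X ^ 9 := by
                rw [← Real.rpow_natCast (2 / X ^ 9) 2, ← Real.rpow_mul (by positivity)]
                norm_num
        have a1 : (1 / (L : ℝ) + (Z / (a : ℝ) ^ (2 + 1)) ^ ((1 : ℝ) / (2 : ℕ)) +
          (a : ℝ) ^ (2 + 1) / (Z * (L : ℝ) ^ (2 + 1))) * (L : ℝ) ^ 4 =
          (L : ℝ) ^ 3 + (Z / (a : ℝ) ^ (2 + 1)) ^ ((1 : ℝ) / (2 : ℕ)) * (L : ℝ) ^ 4 +
            (a : ℝ) ^ 3 * L / Z := by
          field_simp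
          ring
        rw [a1]
        have b1 : (L : ℝ) ^ 3 ≤ 8 * X ^ 32 := by
          calc (L : ℝ) ^ 3 ≤ (2 * X ^ 10) ^ 3 := by gcongr
            _ = 8 * X ^ 30 := by ring
            _ ≤ 8 * X ^ 32 := by
              have : X ^ 30 ≤ X ^ 32 := pow_le_pow_right₀ hX1 (by norm_num)
              linarith
        have b2 : (Z / (a : ℝ) ^ (2 + 1)) ^ ((1 : ℝ) / (2 : ℕ)) * (L : ℝ) ^ 4 ≤ 32 * X ^ 32 := by
          calc (Z / (a : ℝ) ^ (2 + 1)) ^ ((1 : ℝ) / (2 : ℕ)) * (L : ℝ) ^ 4 ≤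
                2 / X ^ 9 * (2 * X ^ 10) ^ 4 := by gcongr
            _ = 32 * X ^ 31 := by field_simp; ring
            _ ≤ 32 * X ^ 32 := by
              have : X ^ 31 ≤ X ^ 32 := pow_le_pow_right₀ hX1 (by norm_num)
              linarith
        have b3 : (a : ℝ) ^ 3 * L / Z ≤ 112 * X ^ 32 := by
          rw [div_le_iff₀ hZ0]
          calc (a : ℝ) ^ 3 * L ≤ (2 * X ^ 18) ^ 3 * (2 * X ^ 10) := by gcongr
            _ = 16 * X ^ 32 * X ^ 32 := by ring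
            _ ≤ 16 * X ^ 32 * (7 * Z) := by gcongr
            _ = _ := by ring
        linarith
      have h5 : (1 + Real.log L) ^ 2 ≤ lg ^ 2 := pow_le_pow_left₀ hlogL0 hlogL 2
      calc (K / L) ^ (2 ^ 2) * (L : ℝ) ^ 4 ≤ (CK 2 * (1 + Real.log L) ^ 2 *
            (1 / (L : ℝ) + (Z / (a : ℝ) ^ (2 + 1)) ^ ((1 : ℝ) / (2 : ℕ)) +
              (a : ℝ) ^ (2 + 1) / (Z * (L : ℝ) ^ (2 + 1)))) * (L : ℝ) ^ 4 :=
            mul_le_mul_of_nonneg_right h (by positivity)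
        _ = (CK 2 * (1 + Real.log L) ^ 2) *
            ((1 / (L : ℝ) + (Z / (a : ℝ) ^ (2 + 1)) ^ ((1 : ℝ) / (2 : ℕ)) +
              (a : ℝ) ^ (2 + 1) / (Z * (L : ℝ) ^ (2 + 1))) * (L : ℝ) ^ 4) := by ring
        _ ≤ (CK 2 * lg ^ 2) * (152 * X ^ 32) := by
            apply mul_le_mul _ h4 (by positivity) (by positivity)
            gcongr
    apply le_of_pow_le_pow_left₀ (by norm_num : 4 ≠ 0) (by positivity)
    refine h2.trans ?_
    have c1 : CK 2 ≤ (CK 1 * CK 2) ^ 4 := by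
      have d1 : 1 ≤ CK 1 * CK 2 := by nlinarith
      have d2 : CK 2 ≤ CK 1 * CK 2 := by nlinarith
      exact d2.trans (le_self_pow₀ d1 (by norm_num))
    have c2 : lg ^ 2 ≤ lg ^ 4 := pow_le_pow_right₀ hlg1 (by norm_num)
    calc CK 2 * lg ^ 2 * (152 * X ^ 32) ≤ (CK 1 * CK 2) ^ 4 * lg ^ 4 * (56 ^ 4 * X ^ 32) := by
          gcongr
          norm_num
      _ = _ := by ring

end Pool.Agent.R327.SI
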