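import Pool.Agent.R327.SIAp

/-!
The kernel of a short arithmetic progression: `|t| ≤ (2N)^A`.
-/

set_option autoImplicit false

namespace Pool.Agent.R327.SI

open Finset
open Pool.Agent.H469R2.NK (e norm_e)
open Pool.Agent.H442R2.EHI (EL SL)
open Pool.Agent.TH705.DL (ph ph_norm ph_conj ph_eq)

theorem pow_quot {L l : ℝ} (hL : 0 < L) (hLl : L ≤ l) {k w : ℕ} (hk : k ≤ w) :
    L ^ w / L ^ k ≤ l ^ w / l ^ k := by
  have hl : 0 < l := lt_of_lt_of_le hL hLl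
  have e1 : L ^ w / L ^ k = L ^ (w - k) := by rw [pow_sub₀ L hL.ne' hk, div_eq_mul_inv]
  have e2 : l ^ w / l ^ k = l ^ (w - k) := by rw [pow_sub₀ l hl.ne' hk, div_eq_mul_inv]
  rw [e1, e2]
  exact pow_le_pow_left₀ hL.le hLl _

theorem kerAP (A : ℝ) (hA : 1 ≤ A) : ∃ c : ℝ, 0 < c ∧ c ≤ 1 / 64 ∧ ∃ C : ℝ, 1 ≤ C ∧
    ∀ N a d L : ℕ, 1 ≤ N → 1 ≤ d → N ≤ a → a + d * L ≤ 2 * N + d →
    (L : ℝ) ≤ 2 * (N : ℝ) ^ (1 / 2 + c) → ∀ t : ℝ, (N : ℝ) ^ (1 + 2 * c) ≤ |t| →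
    |t| ≤ (2 * N : ℝ) ^ A →
    ‖∑ j ∈ range L, ph t (a + d * j)‖ ≤ C * (1 + Real.log (2 * N)) * (N : ℝ) ^ (1 / 2 - c) := by
  obtain ⟨Q, hQ⟩ : ∃ Q : ℕ, Q = ⌈6 * A + 3⌉₊ := ⟨_, rfl⟩
  have hQA : 6 * A + 3 ≤ Q := by rw [hQ]; exact Nat.le_ceil _
  have hQ9 : (9 : ℝ) ≤ Q := by linarith
  have hQ9' : 9 ≤ Q := by exact_mod_cast hQ9
  obtain ⟨c, hc⟩ : ∃ c : ℝ, c = 1 / (8 * Q * 2 ^ Q) := ⟨_, rfl⟩
  have hc0 : 0 < c := by rw [hc]; positivity
  have h2Q : (512 : ℝ) ≤ 2 ^ Q := by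
    calc (512 : ℝ) = 2 ^ 9 := by norm_num
      _ ≤ 2 ^ Q := pow_le_pow_right₀ (by norm_num) hQ9'
  have hc64 : c ≤ 1 / 64 := by
    rw [hc, div_le_div_iff₀ (by positivity) (by norm_num)]
    nlinarith
  have hcQ : ∀ q : ℕ, 1 ≤ q → q ≤ Q → 2 * c * 2 ^ q ≤ 1 / (4 * q) := by
    intro q hq1 hqQ
    have hq0 : (0 : ℝ) < q := by exact_mod_cast hq1
    have h1 : (2 : ℝ) ^ q ≤ 2 ^ Q := pow_le_pow_right₀ (by norm_num) hqQ
    have h2 : (q : ℝ) ≤ Q := by exact_mod_cast hqQ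
    have h3 : 2 * c * 2 ^ Q = 1 / (4 * Q) := by
      rw [hc]; field_simp; norm_num
    calc 2 * c * 2 ^ q ≤ 2 * c * 2 ^ Q := by gcongr
      _ = 1 / (4 * Q) := h3
      _ ≤ 1 / (4 * q) := by
        apply one_div_le_one_div_of_le (by positivity)
        linarith
  obtain ⟨S, hS⟩ : ∃ S : ℝ, S = ∑ q ∈ range (Q + 1), CK q := ⟨_, rfl⟩
  have hCKS : ∀ q ≤ Q, CK q ≤ S := by
    intro q hq
    rw [hS]
    exact single_le_sum (fun i _ => by linarith [CK_pos i]) (mem_range.2 (by omega))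
  have hS1 : 1 ≤ S := (CK_pos 0).trans (hCKS 0 (by omega))
  refine ⟨c, hc0, hc64, 13122 * S, by linarith, ?_⟩
  intro N a d L hN hd hNa haL hL t ht1 ht2
  have hN1 : (1 : ℝ) ≤ N := by exact_mod_cast hN
  have hn0 : (0 : ℝ) < N := by linarith
  obtain ⟨n, hn⟩ : ∃ n : ℝ, n = N := ⟨_, rfl⟩
  rw [← hn] at hL ht1 ht2 hN1 hn0 ⊢
  have hpow : ∀ x y : ℝ, x ≤ y → n ^ x ≤ n ^ y := fun x y h => Real.rpow_le_rpow_of_exponent_le hN1 h
  have hlog0 : 0 ≤ Real.log (2 * n) := Real.log_nonneg (by linarith)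
  set lg : ℝ := 1 + Real.log (2 * n) with hlg
  have hlg1 : 1 ≤ lg := by rw [hlg]; linarith
  have hlow0 : 0 < n ^ (1 / 2 - c) := by positivity
  set Y : ℝ := n ^ (1 / 2 - c) with hY
  have htriv := ker_triv t a d L
  -- trivial cases
  rcases le_or_gt (L : ℝ) Y with hcase | hcase
  · refine htriv.trans (hcase.trans ?_)
    have : (1 : ℝ) ≤ 13122 * S * lg := by nlinarith
    nlinarith
  rcases lt_or_ge n 6561 with hcase2 | hcase2
  · refine htriv.trans (hL.trans ?_)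
    have h1 : n ^ (1 / 2 + c) = n ^ (2 * c) * Y := by
      rw [hY, ← Real.rpow_add hn0]; congr 1; ring
    have h2 : n ^ (2 * c) ≤ 6561 := by
      calc n ^ (2 * c) ≤ n ^ (1 : ℝ) := hpow _ _ (by linarith)
        _ = n := Real.rpow_one _
        _ ≤ 6561 := hcase2.le
    rw [h1]
    calc 2 * (n ^ (2 * c) * Y) ≤ 2 * (6561 * Y) := by gcongr
      _ = 13122 * 1 * 1 * Y := by ring
      _ ≤ 13122 * S * lg * Y := by gcongr
  -- main case
  rw [ker_abs]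
  have hL1 : 1 ≤ L := by
    by_contra h
    have : L = 0 := by omega
    rw [this] at hcase
    simp only [Nat.cast_zero] at hcase
    linarith
  have hL1' : (1 : ℝ) ≤ L := by exact_mod_cast hL1
  have hLp : (0 : ℝ) < L := by linarith
  have ha1 : 1 ≤ a := by omega
  rw [toSL |t| a d L ha1 hd]
  have hd0 : (0 : ℝ) < d := by exact_mod_cast hd
  have hd1 : (1 : ℝ) ≤ d := by exact_mod_cast hd
  set Z : ℝ := |t| / (2 * Real.pi) with hZ
  have ht0 : 0 < |t| := lt_of_lt_of_le (by positivity) ht1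
  have hpi := Real.pi_pos
  have hpi3 := Real.pi_gt_three
  have hpi4 := Real.pi_lt_d2
  have hZ0 : 0 < Z := by rw [hZ]; positivity
  have hZt : Z ≤ |t| := by
    rw [hZ, div_le_iff₀ (by positivity)]
    nlinarith
  have hZt2 : |t| ≤ 7 * Z := by
    rw [hZ, ← mul_div_assoc, le_div_iff₀ (by positivity)]
    nlinarith
  set u : ℝ := (a : ℝ) / d with hu
  have ha0 : (0 : ℝ) < a := by exact_mod_cast ha1
  have hu0 : 0 < u := by rw [hu]; positivity
  have hLu : (L : ℝ) ≤ u + 1 := by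
    have h1 : d * L ≤ a + d := by omega
    have h2 : (d : ℝ) * L ≤ a + d := by exact_mod_cast h1
    rw [hu, ← sub_le_iff_le_add, le_div_iff₀ hd0]
    nlinarith
  have hu2 : u ≤ 2 * n := by
    have h1 : a ≤ 2 * N := by
      have : d * 1 ≤ d * L := Nat.mul_le_mul_left d hL1
      omega
    have h2 : (a : ℝ) ≤ 2 * n := by rw [hn]; exact_mod_cast h1
    calc u ≤ a := by rw [hu]; exact div_le_self ha0.le hd1
      _ ≤ 2 * n := h2
  obtain ⟨M, hM⟩ : ∃ M : ℕ, M = ⌊u⌋₊ := ⟨_, rfl⟩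
  have hMu : (M : ℝ) ≤ u := by rw [hM]; exact Nat.floor_le hu0.le
  have huM : u < M + 1 := by rw [hM]; exact Nat.lt_floor_add_one u
  have hn8 : (3 : ℝ) ≤ n ^ (1 / 8 : ℝ) := by
    calc (3 : ℝ) = (6561 : ℝ) ^ (1 / 8 : ℝ) := by
          rw [show (6561 : ℝ) = 3 ^ (8 : ℝ) by norm_num, ← Real.rpow_mul (by norm_num)]; norm_num
      _ ≤ n ^ (1 / 8 : ℝ) := Real.rpow_le_rpow (by norm_num) hcase2 (by norm_num)
  have hn3 : (18 : ℝ) ≤ n ^ (1 / 3 : ℝ) := by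
    calc (18 : ℝ) = (5832 : ℝ) ^ (1 / 3 : ℝ) := by
          rw [show (5832 : ℝ) = 18 ^ (3 : ℝ) by norm_num, ← Real.rpow_mul (by norm_num)]; norm_num
      _ ≤ n ^ (1 / 3 : ℝ) := Real.rpow_le_rpow (by norm_num) (by linarith) (by norm_num)
  have hYlow : 3 * n ^ (1 / 3 : ℝ) ≤ Y := by
    calc 3 * n ^ (1 / 3 : ℝ) ≤ n ^ (1 / 8 : ℝ) * n ^ (1 / 3 : ℝ) := by gcongr
      _ = n ^ (1 / 8 + 1 / 3 : ℝ) := by rw [Real.rpow_add hn0]
      _ ≤ Y := by rw [hY]; exact hpow _ _ (by linarith)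
  have hMlow : n ^ (1 / 3 : ℝ) ≤ M := by linarith
  have hM18 : (18 : ℝ) ≤ M := hn3.trans hMlow
  have hM1 : 1 ≤ M := by
    have : (1 : ℝ) ≤ M := by linarith
    exact_mod_cast this
  have hM0 : (0 : ℝ) < M := by linarith
  have huL3 : u + L ≤ 3 * M := by linarith
  have hM2n : (M : ℝ) ≤ 2 * n := hMu.trans hu2
  -- choice of `q`
  have hZA : Z ≤ n ^ (2 * A) := by
    calc Z ≤ (2 * n) ^ A := hZt.trans ht2
      _ ≤ (n ^ (2 : ℝ)) ^ A := by
          apply Real.rpow_le_rpow (by positivity) _ (by linarith)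
          rw [Real.rpow_two]
          nlinarith
      _ = n ^ (2 * A) := by rw [← Real.rpow_mul hn0.le]
  have hex : ∃ q : ℕ, 1 ≤ q ∧ Z * n ^ (1 / 4 : ℝ) ≤ (M : ℝ) ^ (q + 1) := by
    refine ⟨Q, by omega, ?_⟩
    calc Z * n ^ (1 / 4 : ℝ) ≤ n ^ (2 * A) * n ^ (1 / 4 : ℝ) := by gcongr
      _ = n ^ (2 * A + 1 / 4) := by rw [Real.rpow_add hn0]
      _ ≤ n ^ ((1 / 3 : ℝ) * ((Q + 1 : ℕ) : ℝ)) := by
          apply hpow
          push_cast
          linarith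
      _ = (n ^ (1 / 3 : ℝ)) ^ (Q + 1) := by rw [Real.rpow_mul hn0.le, Real.rpow_natCast]
      _ ≤ (M : ℝ) ^ (Q + 1) := by gcongr
  classical
  obtain ⟨q, hqf⟩ : ∃ q : ℕ, q = Nat.find hex := ⟨_, rfl⟩
  have hq := Nat.find_spec hex
  rw [← hqf] at hq
  obtain ⟨hq1, hqM⟩ := hq
  have hqQ : q ≤ Q := by
    rw [hqf]
    apply Nat.find_min' hex
    refine ⟨by omega, ?_⟩
    calc Z * n ^ (1 / 4 : ℝ) ≤ n ^ (2 * A) * n ^ (1 / 4 : ℝ) := by gcongr
      _ = n ^ (2 * A + 1 / 4) := by rw [Real.rpow_add hn0]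
      _ ≤ n ^ ((1 / 3 : ℝ) * ((Q + 1 : ℕ) : ℝ)) := by
          apply hpow
          push_cast
          linarith
      _ = (n ^ (1 / 3 : ℝ)) ^ (Q + 1) := by rw [Real.rpow_mul hn0.le, Real.rpow_natCast]
      _ ≤ (M : ℝ) ^ (Q + 1) := by gcongr
  have hqmin : 2 ≤ q → (M : ℝ) ^ q < Z * n ^ (1 / 4 : ℝ) := by
    intro h2
    by_contra hcon
    rw [not_lt] at hcon
    have h3 : q ≤ q - 1 := by
      conv_lhs => rw [hqf]
      apply Nat.find_min' hex
      refine ⟨by omega, ?_⟩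
      rw [show q - 1 + 1 = q by omega]
      exact hcon
    omega
  have hq0 : (0 : ℝ) < q := by exact_mod_cast hq1
  have hcq := hcQ q hq1 hqQ
  have h := test q hq1 Z hZ0 M u L hM1 hL1 hMu huL3
  set K : ℝ := ‖SL Z u L []‖ with hK
  have hK0 : 0 ≤ K := norm_nonneg _
  obtain ⟨w, hw⟩ : ∃ w : ℕ, w = 2 ^ q := ⟨_, rfl⟩
  have hwq : q + 1 ≤ w := by rw [hw]; exact Nat.lt_two_pow_self
  have hwR : (w : ℝ) = 2 ^ q := by rw [hw]; push_cast; ring
  rw [← hw] at h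
  rw [← hwR] at hcq
  have h4q : 1 / (4 * (q : ℝ)) ≤ 1 / 4 := by
    apply one_div_le_one_div_of_le (by norm_num)
    have : (1 : ℝ) ≤ q := by exact_mod_cast hq1
    linarith
  set l : ℝ := 2 * n ^ (1 / 2 + c) with hl
  have hl0 : 0 < l := by positivity
  set E : ℝ := n ^ (-(2 * c * w)) with hE
  have hE0 : 0 < E := by rw [hE]; positivity
  have hX1 : 1 / l ≤ E := by
    calc 1 / l ≤ 1 / n ^ (1 / 2 + c) := by
          apply one_div_le_one_div_of_le (by positivity)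
          rw [hl]
          have : 0 < n ^ (1 / 2 + c) := by positivity
          linarith
      _ = n ^ (-(1 / 2 + c)) := by rw [Real.rpow_neg hn0.le, one_div]
      _ ≤ E := by rw [hE]; exact hpow _ _ (by linarith)
  have hX2 : (Z / (M : ℝ) ^ (q + 1)) ^ ((1 : ℝ) / q) ≤ E := by
    have h1 : Z / (M : ℝ) ^ (q + 1) ≤ n ^ (-(1 / 4 : ℝ)) := by
      rw [div_le_iff₀ (by positivity), Real.rpow_neg hn0.le]
      rw [← div_eq_inv_mul, le_div_iff₀ (by positivity)]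
      exact hqM
    calc (Z / (M : ℝ) ^ (q + 1)) ^ ((1 : ℝ) / q) ≤ (n ^ (-(1 / 4 : ℝ))) ^ ((1 : ℝ) / q) := by
          gcongr
      _ = n ^ (-(1 / (4 * q)) : ℝ) := by
          rw [← Real.rpow_mul hn0.le]
          congr 1
          field_simp
      _ ≤ E := by rw [hE]; exact hpow _ _ (by linarith)
  have hX3 : 1 / l ^ (q + 1) * ((M : ℝ) ^ (q + 1) / Z) ≤ 7 * E := by
    rcases Nat.lt_or_ge q 2 with hq2 | hq2
    · have hq1' : q = 1 := by omega
      subst hq1'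
      have hw2 : (w : ℝ) = 2 := by rw [hwR]; norm_num
      have e1 : (M : ℝ) ^ (1 + 1) / Z ≤ 4 * n ^ 2 * (7 / n ^ (1 + 2 * c)) := by
        have h7 : 1 / Z ≤ 7 / n ^ (1 + 2 * c) := by
          rw [div_le_div_iff₀ hZ0 (by positivity)]
          linarith [ht1.trans hZt2]
        calc (M : ℝ) ^ (1 + 1) / Z = (M : ℝ) ^ 2 * (1 / Z) := by ring
          _ ≤ (2 * n) ^ 2 * (7 / n ^ (1 + 2 * c)) := by gcongr
          _ = _ := by ring
      calc 1 / l ^ (1 + 1) * ((M : ℝ) ^ (1 + 1) / Z)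
          ≤ 1 / l ^ (1 + 1) * (4 * n ^ 2 * (7 / n ^ (1 + 2 * c))) := by gcongr
        _ = 7 * (n ^ 2 / ((n ^ (1 / 2 + c)) ^ 2 * n ^ (1 + 2 * c))) := by
            have hgen : ∀ P R : ℝ, 0 < P → 0 < R →
                1 / (2 * P) ^ (1 + 1) * (4 * n ^ 2 * (7 / R)) = 7 * (n ^ 2 / (P ^ 2 * R)) := by
              intro P R hP hR
              field_simp
              ring
            rw [hl]
            exact hgen _ _ (by positivity) (by positivity)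
        _ = 7 * E := by
            congr 1
            rw [hE, hw2, ← Real.rpow_natCast n 2, ← Real.rpow_natCast (n ^ (1 / 2 + c)) 2,
              ← Real.rpow_mul hn0.le, ← Real.rpow_add hn0, ← Real.rpow_sub hn0]
            congr 1
            push_cast
            ring
    · have h1 := hqmin hq2
      have e1 : (M : ℝ) ^ (q + 1) / Z ≤ 2 * n * n ^ (1 / 4 : ℝ) := by
        rw [div_le_iff₀ hZ0, pow_succ]
        calc (M : ℝ) ^ q * M ≤ (Z * n ^ (1 / 4 : ℝ)) * (2 * n) := by gcongr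
          _ = _ := by ring
      have e2 : 1 / l ^ (q + 1) ≤ n ^ (-(3 / 2) : ℝ) := by
        rw [Real.rpow_neg hn0.le, ← one_div]
        apply one_div_le_one_div_of_le (by positivity)
        calc n ^ (3 / 2 : ℝ) = (n ^ (1 / 2 : ℝ)) ^ 3 := by
              rw [← Real.rpow_natCast, ← Real.rpow_mul hn0.le]
              norm_num
          _ ≤ l ^ 3 := by
              gcongr
              rw [hl]
              have h2 : n ^ (1 / 2 : ℝ) ≤ n ^ (1 / 2 + c) := hpow _ _ (by linarith)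
              have h3 : 0 < n ^ (1 / 2 + c) := by positivity
              linarith
          _ ≤ l ^ (q + 1) := by
              apply pow_le_pow_right₀ _ (by omega)
              rw [hl]
              have h2 : (1 : ℝ) ≤ n ^ (1 / 2 + c) := Real.one_le_rpow hN1 (by linarith)
              linarith
      calc 1 / l ^ (q + 1) * ((M : ℝ) ^ (q + 1) / Z)
          ≤ n ^ (-(3 / 2) : ℝ) * (2 * n * n ^ (1 / 4 : ℝ)) := by gcongr
        _ = 2 * n ^ (-(1 / 4) : ℝ) := by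
            have h3 : n ^ (-(1 / 4) : ℝ) = n ^ (-(3 / 2) : ℝ) * n ^ (1 : ℝ) * n ^ (1 / 4 : ℝ) := by
              rw [← Real.rpow_add hn0, ← Real.rpow_add hn0]
              congr 1
              norm_num
            rw [h3, Real.rpow_one]
            ring
        _ ≤ 2 * E := by
            rw [hE]
            have := hpow (-(1 / 4)) (-(2 * c * w)) (by linarith)
            linarith
        _ ≤ 7 * E := by linarith
  have hlogL : 1 + Real.log L ≤ 3 * lg := by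
    have h1 : Real.log L ≤ Real.log (4 * n) := by
      apply Real.log_le_log hLp
      linarith
    have h2 : Real.log (4 * n) = Real.log 2 + Real.log (2 * n) := by
      rw [← Real.log_mul (by norm_num) (by positivity)]
      congr 1
      ring
    have h3 := Real.log_two_lt_d9
    rw [hlg]
    linarith
  have hlogL0 : 0 ≤ 1 + Real.log L := by
    have := Real.log_nonneg hL1'
    linarith
  have hKw : K ^ w ≤ CK q * (3 * lg) ^ q * (9 * (l ^ w * E)) := by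
    have h3 : (K / L) ^ w * (L : ℝ) ^ w = K ^ w := by rw [div_pow]; field_simp
    rw [← h3]
    have h4 : (1 / (L : ℝ) + (Z / (M : ℝ) ^ (q + 1)) ^ ((1 : ℝ) / q) +
        (M : ℝ) ^ (q + 1) / (Z * (L : ℝ) ^ (q + 1))) * (L : ℝ) ^ w ≤ 9 * (l ^ w * E) := by
      have a1 : (1 / (L : ℝ) + (Z / (M : ℝ) ^ (q + 1)) ^ ((1 : ℝ) / q) +
        (M : ℝ) ^ (q + 1) / (Z * (L : ℝ) ^ (q + 1))) * (L : ℝ) ^ w =
          (L : ℝ) ^ w / (L : ℝ) ^ 1 + (Z / (M : ℝ) ^ (q + 1)) ^ ((1 : ℝ) / q) * (L : ℝ) ^ w +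
            (L : ℝ) ^ w / (L : ℝ) ^ (q + 1) * ((M : ℝ) ^ (q + 1) / Z) := by
        rw [pow_one, add_mul, add_mul]
        congr 1
        · congr 1
          ring
        · field_simp
      rw [a1]
      have b1 : (L : ℝ) ^ w / (L : ℝ) ^ 1 ≤ l ^ w * E := by
        calc (L : ℝ) ^ w / (L : ℝ) ^ 1 ≤ l ^ w / l ^ 1 := pow_quot hLp hL (by omega)
          _ = l ^ w * (1 / l) := by rw [pow_one]; ring
          _ ≤ l ^ w * E := by gcongr
      have b2 : (Z / (M : ℝ) ^ (q + 1)) ^ ((1 : ℝ) / q) * (L : ℝ) ^ w ≤ l ^ w * E := by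
        calc (Z / (M : ℝ) ^ (q + 1)) ^ ((1 : ℝ) / q) * (L : ℝ) ^ w ≤ E * l ^ w := by gcongr
          _ = _ := by ring
      have b3 : (L : ℝ) ^ w / (L : ℝ) ^ (q + 1) * ((M : ℝ) ^ (q + 1) / Z) ≤ 7 * (l ^ w * E) := by
        calc (L : ℝ) ^ w / (L : ℝ) ^ (q + 1) * ((M : ℝ) ^ (q + 1) / Z)
            ≤ l ^ w / l ^ (q + 1) * ((M : ℝ) ^ (q + 1) / Z) :=
              mul_le_mul_of_nonneg_right (pow_quot hLp hL hwq) (by positivity)
          _ = l ^ w * (1 / l ^ (q + 1) * ((M : ℝ) ^ (q + 1) / Z)) := by ring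
          _ ≤ l ^ w * (7 * E) := by gcongr
          _ = _ := by ring
      linarith
    have h5 : (1 + Real.log L) ^ q ≤ (3 * lg) ^ q := pow_le_pow_left₀ hlogL0 hlogL q
    have hCKq := CK_pos q
    calc (K / L) ^ w * (L : ℝ) ^ w ≤ (CK q * (1 + Real.log L) ^ q *
          (1 / (L : ℝ) + (Z / (M : ℝ) ^ (q + 1)) ^ ((1 : ℝ) / q) +
            (M : ℝ) ^ (q + 1) / (Z * (L : ℝ) ^ (q + 1)))) * (L : ℝ) ^ w :=
          mul_le_mul_of_nonneg_right h (by positivity)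
      _ = (CK q * (1 + Real.log L) ^ q) *
          ((1 / (L : ℝ) + (Z / (M : ℝ) ^ (q + 1)) ^ ((1 : ℝ) / q) +
            (M : ℝ) ^ (q + 1) / (Z * (L : ℝ) ^ (q + 1))) * (L : ℝ) ^ w) := by ring
      _ ≤ (CK q * (3 * lg) ^ q) * (9 * (l ^ w * E)) := by
          apply mul_le_mul _ h4 (by positivity) (by positivity)
          gcongr
  have hlE : l ^ w * E = 2 ^ w * Y ^ w := by
    rw [hl, hY, hE, mul_pow, mul_assoc]
    congr 1
    rw [← Real.rpow_natCast (n ^ (1 / 2 + c)) w, ← Real.rpow_natCast (n ^ (1 / 2 - c)) w,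
      ← Real.rpow_mul hn0.le, ← Real.rpow_mul hn0.le, ← Real.rpow_add hn0]
    congr 1
    ring
  rw [hlE] at hKw
  have hfin : K ^ w ≤ (54 * S * lg * Y) ^ w := by
    refine hKw.trans ?_
    have hw1 : w ≠ 0 := by omega
    have hCKq := CK_pos q
    have f1 : CK q ≤ S ^ w := (hCKS q hqQ).trans (le_self_pow₀ hS1 hw1)
    have f2 : (3 * lg) ^ q ≤ (3 * lg) ^ w := pow_le_pow_right₀ (by linarith) (by omega)
    have f3 : (9 : ℝ) ≤ 9 ^ w := le_self_pow₀ (by norm_num) hw1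
    calc CK q * (3 * lg) ^ q * (9 * (2 ^ w * Y ^ w)) ≤ S ^ w * (3 * lg) ^ w * (9 ^ w * (2 ^ w * Y ^ w)) := by
          gcongr
      _ = (54 * S * lg * Y) ^ w := by
          rw [← mul_pow, ← mul_pow, ← mul_pow, ← mul_pow]
          congr 1
          ring
  have hfin2 : K ≤ 54 * S * lg * Y :=
    le_of_pow_le_pow_left₀ (by omega) (by positivity) hfin
  refine hfin2.trans ?_
  have : 54 * S ≤ 13122 * S := by linarith
  gcongr

end Pool.Agent.R327.SI
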