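import Pool.Agent.H442R2.EHI.VdC
import Pool.Agent.TH705.DL.Block

/-!
Derivative tests of van der Corput for `∑_{n < L} (u+n)^{2 π i Z}`, `N ≤ u ≤ u + L ≤ 3 N`, where the number
`L` of the terms may be much smaller than `N`.
-/

set_option autoImplicit false

namespace Pool.Agent.R327.SI

open Finset
open Pool.Agent.H469R2.NK (e norm_e Cq Cq_pos iterate Av_le harm_le)
open Pool.Agent.H442R2.EHI (EL SL SL_sq SL_le)

/-- van der Corput, normalised by the number of terms -/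
theorem exp_boundS (q : ℕ) (Z : ℝ) (hZ : 0 < Z) (N : ℕ) (u : ℝ) (L H : ℕ) (hN : 1 ≤ N)
    (hu : (N : ℝ) ≤ u) (huL : u + L ≤ 3 * N) (hH : 1 ≤ H) (hHL : H ≤ L)
    (hup : 2 * (Z * (q.factorial / (N : ℝ) ^ (q + 1) * (H : ℝ) ^ q)) ≤ 1) :
    (‖SL Z u L []‖ / L) ^ (2 ^ q) ≤ Cq q * (1 / H +
      (2 * (3 * N) ^ (q + 1) / (Z * q.factorial) / L) * ((∑ l ∈ Ico 1 H, (1 : ℝ) / l) / H) ^ q) := by
  have hN' : (1 : ℝ) ≤ N := by exact_mod_cast hN
  have hH' : (1 : ℝ) ≤ H := by exact_mod_cast hH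
  have hHL' : (H : ℝ) ≤ L := by exact_mod_cast hHL
  have hL0 : (0 : ℝ) < L := by linarith
  have hstep : ∀ ls : List ℕ, (‖SL Z u L ls‖ / L) ^ 2 ≤
      2 / H + 4 * ((∑ l ∈ Ico 1 H, ‖SL Z u L (l :: ls)‖ / L) / H) := by
    intro ls
    have h := SL_sq Z u L H ls
    set Sg := ∑ l ∈ Ico 1 H, ‖SL Z u L (l :: ls)‖ with hSg
    have hSg0 : 0 ≤ Sg := sum_nonneg fun _ _ => norm_nonneg _
    have h2 : (H : ℝ) * ‖SL Z u L ls‖ ^ 2 ≤ (2 * L) * (L + 2 * Sg) := by
      refine h.trans ?_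
      have : (L : ℝ) + H ≤ 2 * L := by linarith
      gcongr
    rw [← sum_div, ← hSg]
    have e1 : 2 / (H : ℝ) + 4 * (Sg / L / H) = ((2 * L) * (L + 2 * Sg)) / (H * L ^ 2) := by
      field_simp
      ring
    rw [e1, div_pow, div_le_div_iff₀ (by positivity) (by positivity)]
    calc ‖SL Z u L ls‖ ^ 2 * (H * L ^ 2) = ((H : ℝ) * ‖SL Z u L ls‖ ^ 2) * L ^ 2 := by ring
      _ ≤ _ := by gcongr
  have hit := iterate hH (fun ls => ‖SL Z u L ls‖ / L) (fun ls => by positivity) hstep q []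
  refine hit.trans ?_
  have hC := Cq_pos q
  gcongr
  have := Av_le (H := H) (T := fun ls => ‖SL Z u L ls‖ / L)
    (κ := 2 * (3 * N) ^ (q + 1) / (Z * q.factorial) / L) q (by
      intro ls hlen hent
      have hpos : 0 < ls.prod := List.prod_pos fun l hl => (hent l hl).1
      have hle : ls.prod ≤ H ^ q := by
        have := List.prod_le_pow_card ls H (fun l hl => (hent l hl).2.le)
        rwa [hlen] at this
      have hle' : ((ls.prod : ℕ) : ℝ) ≤ (H : ℝ) ^ q := by exact_mod_cast hle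
      have h1 := SL_le Z hZ N u L hN hu huL ls hpos (by
        rw [hlen]
        refine le_trans ?_ hup
        gcongr)
      rw [hlen] at h1
      have hP : (0 : ℝ) < (ls.prod : ℕ) := by exact_mod_cast hpos
      calc ‖SL Z u L ls‖ / L ≤ (2 * (3 * N) ^ (q + 1) / (Z * q.factorial * (ls.prod : ℕ))) / L := by gcongr
        _ = _ := by field_simp) q [] (by simp) (by simp)
  simpa using this

/-- the constant of the test -/
noncomputable def CK (q : ℕ) : ℝ :=
  1 + Cq q * (2 + 2 * 3 ^ (q + 1) * 2 ^ q) * (1 + (2 * q.factorial : ℝ))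

theorem CK_pos (q : ℕ) : 1 ≤ CK q := by
  have := Cq_pos q
  unfold CK
  have h : 0 ≤ Cq q * (2 + 2 * 3 ^ (q + 1) * 2 ^ q) * (1 + (2 * q.factorial : ℝ)) := by positivity
  linarith

/-- the `q`-th test -/
theorem test (q : ℕ) (hq : 1 ≤ q) (Z : ℝ) (hZ : 0 < Z) (N : ℕ) (u : ℝ) (L : ℕ) (hN : 1 ≤ N) (hL : 1 ≤ L)
    (hu : (N : ℝ) ≤ u) (huL : u + L ≤ 3 * N) :
    (‖SL Z u L []‖ / L) ^ (2 ^ q) ≤ CK q * (1 + Real.log L) ^ q *
      (1 / L + (Z / (N : ℝ) ^ (q + 1)) ^ ((1 : ℝ) / q) + (N : ℝ) ^ (q + 1) / (Z * (L : ℝ) ^ (q + 1))) := by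
  have hN' : (1 : ℝ) ≤ N := by exact_mod_cast hN
  have hN0 : (0 : ℝ) < N := by linarith
  have hL' : (1 : ℝ) ≤ L := by exact_mod_cast hL
  have hL0 : (0 : ℝ) < L := by linarith
  have hq' : (1 : ℝ) ≤ q := by exact_mod_cast hq
  have hlog : 0 ≤ Real.log L := Real.log_nonneg hL'
  have hCq := Cq_pos q
  have hfac1 : (1 : ℝ) ≤ q.factorial := by exact_mod_cast Nat.one_le_iff_ne_zero.2 (Nat.factorial_ne_zero q)
  have htriv : ‖SL Z u L []‖ / L ≤ 1 := by
    rw [div_le_one hL0]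
    unfold SL
    refine (norm_sum_le _ _).trans ?_
    simp only [norm_e, sum_const, card_range, nsmul_eq_mul, mul_one, List.sum_nil, Nat.sub_zero]
    exact le_rfl
  have hnn : 0 ≤ ‖SL Z u L []‖ / L := by positivity
  have hlq : (1 : ℝ) ≤ (1 + Real.log L) ^ q := one_le_pow₀ (by linarith)
  -- the size `h`
  set g : ℝ := ((N : ℝ) ^ (q + 1) / (2 * q.factorial * Z)) ^ ((1 : ℝ) / q) with hg
  have hgq : g ^ q = (N : ℝ) ^ (q + 1) / (2 * q.factorial * Z) := by
    rw [hg, ← Real.rpow_natCast, ← Real.rpow_mul (by positivity), one_div_mul_cancel (by positivity),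
      Real.rpow_one]
  have hg0 : 0 < g := by rw [hg]; positivity
  have hginv : 1 / g ≤ (2 * q.factorial) * (Z / (N : ℝ) ^ (q + 1)) ^ ((1 : ℝ) / q) := by
    have h1 : 1 / g = (2 * q.factorial * Z / (N : ℝ) ^ (q + 1)) ^ ((1 : ℝ) / q) := by
      rw [hg, one_div, ← Real.inv_rpow (by positivity), inv_div]
    rw [h1, mul_div_assoc, Real.mul_rpow (by positivity) (by positivity)]
    have h2 : ((2 : ℝ) * q.factorial) ^ ((1 : ℝ) / q) ≤ 2 * q.factorial := by
      calc ((2 : ℝ) * q.factorial) ^ ((1 : ℝ) / q) ≤ ((2 : ℝ) * q.factorial) ^ (1 : ℝ) :=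
            Real.rpow_le_rpow_of_exponent_le (by linarith) (by rw [div_le_one (by positivity)]; exact hq')
        _ = _ := Real.rpow_one _
    gcongr
  have hP0 : 0 ≤ (Z / (N : ℝ) ^ (q + 1)) ^ ((1 : ℝ) / q) := by positivity
  have hR0 : 0 ≤ (N : ℝ) ^ (q + 1) / (Z * (L : ℝ) ^ (q + 1)) := by positivity
  have hL1 : 0 ≤ 1 / (L : ℝ) := by positivity
  set P : ℝ := (Z / (N : ℝ) ^ (q + 1)) ^ ((1 : ℝ) / q) with hP
  set R : ℝ := (N : ℝ) ^ (q + 1) / (Z * (L : ℝ) ^ (q + 1)) with hR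
  have hfac : (0:ℝ) < 2 * q.factorial := by positivity
  rcases lt_or_ge g 1 with hg1 | hg1
  · -- trivial case
    have h1 : 1 ≤ (2 * q.factorial) * P := by
      refine le_trans ?_ hginv
      rw [le_div_iff₀ hg0]; linarith
    have h2 : (‖SL Z u L []‖ / L) ^ (2 ^ q) ≤ 1 := pow_le_one₀ hnn htriv
    refine h2.trans ?_
    have h3 : (1 : ℝ) ≤ CK q * P := by
      refine h1.trans ?_
      have h4 : (2 * q.factorial : ℝ) ≤ CK q := by
        unfold CK
        have h5 : (1 : ℝ) ≤ Cq q := by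
          clear_value P R
          rcases q with _ | q
          · simp [Cq]
          · unfold Cq
            have h6 := Cq_pos q
            have h7 : (1 : ℝ) ≤ 2 ^ (2 ^ q) := one_le_pow₀ (by norm_num)
            nlinarith [mul_nonneg (pow_nonneg (by norm_num : (0:ℝ) ≤ 4) (2 ^ q)) h6.le]
        have h6 : (1 : ℝ) ≤ 2 + 2 * 3 ^ (q + 1) * 2 ^ q := by
          have : (0 : ℝ) ≤ 2 * 3 ^ (q + 1) * 2 ^ q := by positivity
          linarith
        have h7 : (1 : ℝ) ≤ Cq q * (2 + 2 * 3 ^ (q + 1) * 2 ^ q) := one_le_mul_of_one_le_of_one_le h5 h6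
        nlinarith
      gcongr
    have hCK := CK_pos q
    calc (1 : ℝ) ≤ CK q * P := h3
      _ = CK q * 1 * P := by ring
      _ ≤ CK q * (1 + Real.log L) ^ q * (1 / L + P + R) := by
        gcongr
        linarith
  · set h : ℝ := min (L : ℝ) g with hh
    have hh1 : 1 ≤ h := le_min hL' hg1
    have hh0 : 0 < h := by linarith
    have hhL : h ≤ L := min_le_left _ _
    have hhg : h ≤ g := min_le_right _ _
    obtain ⟨H, hH⟩ : ∃ H : ℕ, H = ⌊h⌋₊ := ⟨_, rfl⟩
    have hH1 : 1 ≤ H := by rw [hH]; exact Nat.le_floor (by exact_mod_cast hh1)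
    have hH1' : (1 : ℝ) ≤ H := by exact_mod_cast hH1
    have hHh : (H : ℝ) ≤ h := by rw [hH]; exact Nat.floor_le hh0.le
    have hhH : h ≤ 2 * H := by
      have := Nat.lt_floor_add_one h
      rw [← hH] at this
      linarith
    have hHL : H ≤ L := by exact_mod_cast hHh.trans hhL
    have hup : 2 * (Z * (q.factorial / (N : ℝ) ^ (q + 1) * (H : ℝ) ^ q)) ≤ 1 := by
      have h1 : (H : ℝ) ^ q ≤ (N : ℝ) ^ (q + 1) / (2 * q.factorial * Z) := by
        rw [← hgq]
        exact pow_le_pow_left₀ (by positivity) (hHh.trans hhg) q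
      calc 2 * (Z * (q.factorial / (N : ℝ) ^ (q + 1) * (H : ℝ) ^ q))
          ≤ 2 * (Z * (q.factorial / (N : ℝ) ^ (q + 1) * ((N : ℝ) ^ (q + 1) / (2 * q.factorial * Z)))) := by
            gcongr
        _ = 1 := by field_simp
    have hmain := exp_boundS q Z hZ N u L H hN hu huL hH1 hHL hup
    refine hmain.trans ?_
    -- bound of the two terms
    have hHinv : 1 / (H : ℝ) ≤ 2 / h := by
      rw [div_le_div_iff₀ (by linarith) hh0]
      linarith
    have hharm : (∑ l ∈ Ico 1 H, (1 : ℝ) / l) / H ≤ 2 * (1 + Real.log L) / h := by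
      have h1 := harm_le H
      have h2 : Real.log H ≤ Real.log L := Real.log_le_log (by linarith) (by exact_mod_cast hHL)
      have h3 : 0 ≤ ∑ l ∈ Ico 1 H, (1 : ℝ) / l := sum_nonneg fun _ _ => by positivity
      rw [div_le_div_iff₀ (by linarith) hh0]
      calc (∑ l ∈ Ico 1 H, (1 : ℝ) / l) * h ≤ (1 + Real.log L) * (2 * H) := by
            apply mul_le_mul (by linarith) hhH hh0.le (by linarith)
        _ = _ := by ring
    have hharm0 : 0 ≤ (∑ l ∈ Ico 1 H, (1 : ℝ) / l) / H := by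
      have h3 : 0 ≤ ∑ l ∈ Ico 1 H, (1 : ℝ) / l := sum_nonneg fun _ _ => by positivity
      positivity
    have hharmq : ((∑ l ∈ Ico 1 H, (1 : ℝ) / l) / H) ^ q ≤ 2 ^ q * (1 + Real.log L) ^ q / h ^ q := by
      rw [← mul_pow, ← div_pow]
      exact pow_le_pow_left₀ hharm0 hharm q
    have h1h : 1 / h ≤ 1 / L + (2 * q.factorial) * P := by
      rcases min_choice (L : ℝ) g with hc | hc
      · rw [hh, hc]
        have : 0 ≤ (2 * q.factorial) * P := by positivity
        linarith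
      · rw [hh, hc]
        linarith
    have h2h : (N : ℝ) ^ (q + 1) / (Z * L * h ^ q) ≤ R + 2 * q.factorial / L := by
      rcases min_choice (L : ℝ) g with hc | hc
      · rw [hh, hc, hR]
        have e1 : Z * (L : ℝ) * (L : ℝ) ^ q = Z * (L : ℝ) ^ (q + 1) := by ring
        rw [e1]
        have : 0 ≤ 2 * (q.factorial : ℝ) / L := by positivity
        linarith
      · rw [hh, hc, hgq]
        have e1 : (N : ℝ) ^ (q + 1) / (Z * L * ((N : ℝ) ^ (q + 1) / (2 * q.factorial * Z))) =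
            2 * q.factorial / L := by
          field_simp
        rw [e1]
        linarith
    have hsecond : (2 * (3 * (N : ℝ)) ^ (q + 1) / (Z * q.factorial) / L) *
        ((∑ l ∈ Ico 1 H, (1 : ℝ) / l) / H) ^ q ≤
        2 * 3 ^ (q + 1) * 2 ^ q * (1 + Real.log L) ^ q * ((N : ℝ) ^ (q + 1) / (Z * L * h ^ q)) := by
      calc (2 * (3 * (N : ℝ)) ^ (q + 1) / (Z * q.factorial) / L) *
            ((∑ l ∈ Ico 1 H, (1 : ℝ) / l) / H) ^ q
          ≤ (2 * (3 * (N : ℝ)) ^ (q + 1) / (Z * 1) / L) * (2 ^ q * (1 + Real.log L) ^ q / h ^ q) := by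
            gcongr
        _ = _ := by
            rw [mul_pow]
            field_simp
    set lg : ℝ := (1 + Real.log L) ^ q with hlg
    have hX0 : 0 ≤ 1 / L + P + R := by positivity
    have e1 : 1 / (H : ℝ) ≤ lg * (2 * (1 + 2 * q.factorial) * (1 / L + P + R)) := by
      have h3 : 1 / (H : ℝ) ≤ 2 * (1 / L + 2 * q.factorial * P) := by
        calc 1 / (H : ℝ) ≤ 2 / h := hHinv
          _ = 2 * (1 / h) := by ring
          _ ≤ _ := by gcongr
      have h4 : 2 * (1 / (L : ℝ) + 2 * q.factorial * P) ≤ 2 * (1 + 2 * q.factorial) * (1 / L + P + R) := by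
        have a1 : 0 ≤ 2 * (q.factorial : ℝ) * (1 / L) := by positivity
        have a3 : 0 ≤ 2 * (q.factorial : ℝ) * R := by positivity
        nlinarith
      calc 1 / (H : ℝ) ≤ 2 * (1 + 2 * q.factorial) * (1 / L + P + R) := h3.trans h4
        _ = 1 * (2 * (1 + 2 * q.factorial) * (1 / L + P + R)) := by ring
        _ ≤ _ := by
            apply mul_le_mul_of_nonneg_right hlq
            positivity
    have e2 : (N : ℝ) ^ (q + 1) / (Z * L * h ^ q) ≤ (1 + 2 * q.factorial) * (1 / L + P + R) := by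
      refine h2h.trans ?_
      have a2 : 0 ≤ 2 * (q.factorial : ℝ) * P := by positivity
      have a3 : 0 ≤ 2 * (q.factorial : ℝ) * R := by positivity
      have a4 : 2 * (q.factorial : ℝ) / L = 2 * q.factorial * (1 / L) := by ring
      rw [a4]
      nlinarith
    calc Cq q * (1 / H + (2 * (3 * (N : ℝ)) ^ (q + 1) / (Z * q.factorial) / L) *
          ((∑ l ∈ Ico 1 H, (1 : ℝ) / l) / H) ^ q)
        ≤ Cq q * (lg * (2 * (1 + 2 * q.factorial) * (1 / L + P + R)) +
          2 * 3 ^ (q + 1) * 2 ^ q * lg * ((1 + 2 * q.factorial) * (1 / L + P + R))) := by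
          have e3 : 2 * (3 * (N : ℝ)) ^ (q + 1) / (Z * q.factorial) / L *
              ((∑ l ∈ Ico 1 H, (1 : ℝ) / l) / H) ^ q ≤
              2 * 3 ^ (q + 1) * 2 ^ q * lg * ((1 + 2 * q.factorial) * (1 / L + P + R)) :=
            hsecond.trans (mul_le_mul_of_nonneg_left e2 (by positivity))
          exact mul_le_mul_of_nonneg_left (add_le_add e1 e3) hCq.le
      _ = (Cq q * (2 + 2 * 3 ^ (q + 1) * 2 ^ q) * (1 + 2 * q.factorial)) * lg * (1 / L + P + R) := by ring
      _ ≤ CK q * lg * (1 / L + P + R) := by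
          have : Cq q * (2 + 2 * 3 ^ (q + 1) * 2 ^ q) * (1 + 2 * (q.factorial : ℝ)) ≤ CK q := by
            unfold CK; linarith
          gcongr

end Pool.Agent.R327.SI
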