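import Pool.Agent.R327.SIKer

/-!
Large sieve inequality of Halász and Montgomery for a support `P` whose kernel is small away from the origin.
-/

set_option autoImplicit false

namespace Pool.Agent.R327.SI

open Finset
open Pool.Agent.TH705.DL (ph ph_norm ph_sub Sep block DP sum_unit_le)

theorem schur (P : Finset ℕ) (W : Finset ℝ) (Λ : ℝ) (hΛ : 0 ≤ Λ)
    (h : ∀ t ∈ W, ∑ s ∈ W, ‖∑ n ∈ P, ph (t - s) n‖ ≤ Λ) (b : ℕ → ℂ) :
    ∑ t ∈ W, ‖∑ n ∈ P, b n * ph t n‖ ^ 2 ≤ Λ * ∑ n ∈ P, ‖b n‖ ^ 2 := by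
  set c : ℝ → ℂ := fun t => (starRingEnd ℂ) (∑ n ∈ P, b n * ph t n) with hc
  set A : ℝ := ∑ t ∈ W, ‖∑ n ∈ P, b n * ph t n‖ ^ 2 with hA
  have hcA : ∑ t ∈ W, ‖c t‖ ^ 2 = A := by
    rw [hA]
    apply sum_congr rfl
    intro t _
    simp only [hc, RCLike.norm_conj]
  have hA0 : 0 ≤ A := sum_nonneg fun _ _ => by positivity
  have hG0 : 0 ≤ ∑ n ∈ P, ‖b n‖ ^ 2 := sum_nonneg fun _ _ => by positivity
  -- the dual sum
  set E : ℝ := ∑ n ∈ P, ‖∑ t ∈ W, c t * ph t n‖ ^ 2 with hE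
  have hE0 : 0 ≤ E := sum_nonneg fun _ _ => by positivity
  have h1 : (A : ℂ) = ∑ n ∈ P, b n * ∑ t ∈ W, c t * ph t n := by
    rw [hA]
    push_cast
    have : ∀ t, ((‖∑ n ∈ P, b n * ph t n‖ : ℂ)) ^ 2 = c t * ∑ n ∈ P, b n * ph t n := by
      intro t
      rw [← Complex.conj_mul']
    simp only [this, mul_sum]
    rw [sum_comm]
    apply sum_congr rfl
    intro n _
    apply sum_congr rfl
    intro t _
    ring
  have h2 : A ≤ ∑ n ∈ P, ‖b n‖ * ‖∑ t ∈ W, c t * ph t n‖ := by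
    have : A ≤ ‖(A : ℂ)‖ := by
      rw [Complex.norm_real]
      exact le_abs_self _
    refine this.trans ?_
    rw [h1]
    refine (norm_sum_le _ _).trans (le_of_eq ?_)
    apply sum_congr rfl
    intro n _
    rw [norm_mul]
  have h3 := sum_mul_sq_le_sq_mul_sq P (fun n => ‖b n‖) (fun n => ‖∑ t ∈ W, c t * ph t n‖)
  have h4 : A ^ 2 ≤ (∑ n ∈ P, ‖b n‖ ^ 2) * E := (pow_le_pow_left₀ hA0 h2 2).trans h3
  -- the dual bound
  have h5 : E ≤ Λ * A := by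
    have e1 : (E : ℂ) = ∑ t ∈ W, ∑ s ∈ W, c t * (starRingEnd ℂ) (c s) * ∑ n ∈ P, ph (t - s) n := by
      rw [hE]
      push_cast
      have : ∀ n, ((‖∑ t ∈ W, c t * ph t n‖ : ℂ)) ^ 2 =
          ∑ t ∈ W, ∑ s ∈ W, c t * (starRingEnd ℂ) (c s) * ph (t - s) n := by
        intro n
        rw [← Complex.mul_conj', map_sum, sum_mul_sum]
        apply sum_congr rfl
        intro t _
        apply sum_congr rfl
        intro s _
        rw [map_mul, ← ph_sub]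
        ring
      simp only [this]
      rw [sum_comm]
      apply sum_congr rfl
      intro t _
      rw [sum_comm]
      apply sum_congr rfl
      intro s _
      rw [mul_sum]
    have e2 : E ≤ ∑ t ∈ W, ∑ s ∈ W, ‖c t‖ * ‖c s‖ * ‖∑ n ∈ P, ph (t - s) n‖ := by
      have : E ≤ ‖(E : ℂ)‖ := by
        rw [Complex.norm_real]
        exact le_abs_self _
      refine this.trans ?_
      rw [e1]
      refine (norm_sum_le _ _).trans ?_
      apply sum_le_sum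
      intro t _
      refine (norm_sum_le _ _).trans ?_
      apply sum_le_sum
      intro s _
      have hcs : ‖(starRingEnd ℂ) (c s)‖ = ‖c s‖ := RCLike.norm_conj _
      rw [norm_mul, norm_mul, hcs]
    have hsym : ∀ t s : ℝ, ‖∑ n ∈ P, ph (t - s) n‖ = ‖∑ n ∈ P, ph (s - t) n‖ := by
      intro t s
      rw [← RCLike.norm_conj, map_sum]
      congr 1
      apply sum_congr rfl
      intro n _
      rw [Pool.Agent.TH705.DL.ph_conj]
      congr 1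
      ring
    have e3 : ∑ t ∈ W, ∑ s ∈ W, ‖c t‖ * ‖c s‖ * ‖∑ n ∈ P, ph (t - s) n‖ ≤
        ∑ t ∈ W, ∑ s ∈ W, ((‖c t‖ ^ 2 + ‖c s‖ ^ 2) / 2) * ‖∑ n ∈ P, ph (t - s) n‖ := by
      apply sum_le_sum
      intro t _
      apply sum_le_sum
      intro s _
      apply mul_le_mul_of_nonneg_right _ (norm_nonneg _)
      nlinarith [sq_nonneg (‖c t‖ - ‖c s‖)]
    have e4 : ∑ t ∈ W, ∑ s ∈ W, ((‖c t‖ ^ 2 + ‖c s‖ ^ 2) / 2) * ‖∑ n ∈ P, ph (t - s) n‖ =
        ∑ t ∈ W, ‖c t‖ ^ 2 * ∑ s ∈ W, ‖∑ n ∈ P, ph (t - s) n‖ := by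
      have a1 : ∑ t ∈ W, ∑ s ∈ W, ((‖c t‖ ^ 2 + ‖c s‖ ^ 2) / 2) * ‖∑ n ∈ P, ph (t - s) n‖ =
          (∑ t ∈ W, ∑ s ∈ W, ‖c t‖ ^ 2 / 2 * ‖∑ n ∈ P, ph (t - s) n‖) +
          ∑ t ∈ W, ∑ s ∈ W, ‖c s‖ ^ 2 / 2 * ‖∑ n ∈ P, ph (t - s) n‖ := by
        rw [← sum_add_distrib]
        apply sum_congr rfl
        intro t _
        rw [← sum_add_distrib]
        apply sum_congr rfl
        intro s _
        ring
      have a2 : ∑ t ∈ W, ∑ s ∈ W, ‖c s‖ ^ 2 / 2 * ‖∑ n ∈ P, ph (t - s) n‖ =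
          ∑ t ∈ W, ∑ s ∈ W, ‖c t‖ ^ 2 / 2 * ‖∑ n ∈ P, ph (t - s) n‖ := by
        rw [sum_comm]
        apply sum_congr rfl
        intro t _
        apply sum_congr rfl
        intro s _
        rw [hsym s t]
      rw [a1, a2, ← sum_add_distrib]
      apply sum_congr rfl
      intro t _
      rw [← sum_add_distrib, mul_sum]
      apply sum_congr rfl
      intro s _
      ring
    calc E ≤ ∑ t ∈ W, ‖c t‖ ^ 2 * ∑ s ∈ W, ‖∑ n ∈ P, ph (t - s) n‖ := e4 ▸ e2.trans e3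
      _ ≤ ∑ t ∈ W, ‖c t‖ ^ 2 * Λ := by
          apply sum_le_sum
          intro t ht
          exact mul_le_mul_of_nonneg_left (h t ht) (by positivity)
      _ = Λ * A := by rw [← sum_mul, hcA, mul_comm]
  rcases hA0.eq_or_lt with h6 | h6
  · rw [← h6]; positivity
  · have h7 : A ^ 2 ≤ (∑ n ∈ P, ‖b n‖ ^ 2) * (Λ * A) := h4.trans (mul_le_mul_of_nonneg_left h5 hG0)
    have h8 : A * A ≤ (Λ * ∑ n ∈ P, ‖b n‖ ^ 2) * A := by nlinarith
    exact le_of_mul_le_mul_right h8 h6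

/-- number of points -/
theorem card_sep (S : Finset ℝ) (hS : Sep S) (x y : ℝ) (hxy : x ≤ y) (hx : ∀ t ∈ S, x ≤ t ∧ t ≤ y) :
    (S.card : ℝ) ≤ y + 1 - x := by
  have h := sum_unit_le (F := fun _ => (1 : ℝ)) continuous_const (fun _ => by norm_num) S hS x y hxy hx
  simpa using h

/-- the sum of the kernel over the near points -/
theorem near (N : ℕ) (hN : 1 ≤ N) (P : Finset ℕ) (hP : ∀ n ∈ P, 1 ≤ n ∧ n ≤ 2 * N) (S : Finset ℝ)
    (hS : Sep S) (Δ : ℝ) (hΔ : (N : ℝ) ≤ Δ) (hSΔ : ∀ s ∈ S, |s| ≤ Δ) :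
    ∑ s ∈ S, ‖∑ n ∈ P, ph s n‖ ≤ 10 * Δ * (1 + Real.log (2 * N)) ^ 2 * Real.sqrt P.card := by
  classical
  have hN1 : (1 : ℝ) ≤ N := by exact_mod_cast hN
  have hΔ1 : 1 ≤ Δ := hN1.trans hΔ
  set a : ℕ → ℂ := fun n => if n ∈ P then 1 else 0 with ha
  have hsub : P ⊆ Icc 1 (2 * N) := by
    intro n hn
    rw [mem_Icc]
    exact hP n hn
  have ha1 : ∀ n ∈ P, a n = 1 := fun n hn => if_pos hn
  have ha0 : ∀ n, n ∉ P → a n = 0 := fun n hn => if_neg hn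
  clear_value a
  have hDP : ∀ s, DP (2 * N) a s = ∑ n ∈ P, ph s n := by
    intro s
    unfold DP
    rw [← sum_subset hsub]
    · apply sum_congr rfl
      intro n hn
      rw [ha1 n hn, one_mul]
    · intro n _ hn
      rw [ha0 n hn, zero_mul]
  have hG : ∑ n ∈ Icc 1 (2 * N), ‖a n‖ ^ 2 = P.card := by
    rw [← sum_subset hsub]
    · have h1 : ∀ n ∈ P, ‖a n‖ ^ 2 = (1 : ℝ) := by
        intro n hn
        rw [ha1 n hn, norm_one, one_pow]
      rw [sum_congr rfl h1]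
      simp
    · intro n _ hn
      rw [ha0 n hn, norm_zero]
      norm_num
  have hb := block (2 * N) (by omega) a S hS (-Δ) Δ (by linarith) (fun s hs => abs_le.1 (hSΔ s hs))
  rw [hG] at hb
  simp only [hDP] at hb
  have hcard := card_sep S hS (-Δ) Δ (by linarith) (fun s hs => abs_le.1 (hSΔ s hs))
  set lg : ℝ := 1 + Real.log (2 * N) with hlg
  have hlg1 : 1 ≤ lg := by
    have : 0 ≤ Real.log (2 * (N : ℝ)) := Real.log_nonneg (by linarith)
    linarith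
  have hb2 : ∑ s ∈ S, ‖∑ n ∈ P, ph s n‖ ^ 2 ≤ 33 * lg ^ 3 * Δ * P.card := by
    refine hb.trans ?_
    push_cast
    have e1 : Real.log (2 * (N : ℝ)) = lg - 1 := by rw [hlg]; ring
    rw [e1]
    have h1 : 2 + (lg - 1) ^ 2 ≤ 3 * lg ^ 2 := by nlinarith
    have h2 : (Δ + 1 - -Δ + 4 * (2 * (N : ℝ)) * (1 + (lg - 1))) ≤ 11 * (Δ * lg) := by
      have h3 : (N : ℝ) * lg ≤ Δ * lg := mul_le_mul_of_nonneg_right hΔ (by linarith)
      have h4 : Δ ≤ Δ * lg := le_mul_of_one_le_right (by linarith) hlg1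
      nlinarith
    have h5 : 0 ≤ (Δ + 1 - -Δ + 4 * (2 * (N : ℝ)) * (1 + (lg - 1))) := by
      have : 0 ≤ (N : ℝ) * lg := by positivity
      nlinarith
    calc (2 + (lg - 1) ^ 2) * (Δ + 1 - -Δ + 4 * (2 * (N : ℝ)) * (1 + (lg - 1))) * P.card
        ≤ (3 * lg ^ 2) * (11 * (Δ * lg)) * P.card :=
          mul_le_mul_of_nonneg_right (mul_le_mul h1 h2 h5 (by positivity)) (Nat.cast_nonneg _)
      _ = _ := by ring
  have hcs := sum_mul_sq_le_sq_mul_sq S (fun _ => (1 : ℝ)) (fun s => ‖∑ n ∈ P, ph s n‖)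
  simp only [one_mul, one_pow, sum_const, nsmul_eq_mul, mul_one] at hcs
  have hx0 : 0 ≤ ∑ s ∈ S, ‖∑ n ∈ P, ph s n‖ := sum_nonneg fun _ _ => norm_nonneg _
  have hsq : (∑ s ∈ S, ‖∑ n ∈ P, ph s n‖) ^ 2 ≤ (10 * Δ * lg ^ 2 * Real.sqrt P.card) ^ 2 := by
    calc (∑ s ∈ S, ‖∑ n ∈ P, ph s n‖) ^ 2 ≤ S.card * ∑ s ∈ S, ‖∑ n ∈ P, ph s n‖ ^ 2 := hcs
      _ ≤ (3 * Δ) * (33 * lg ^ 3 * Δ * P.card) := by
          apply mul_le_mul (by linarith) hb2 (sum_nonneg fun _ _ => by positivity) (by linarith)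
      _ = 99 * Δ ^ 2 * lg ^ 3 * P.card := by ring
      _ ≤ 100 * Δ ^ 2 * lg ^ 4 * P.card := by
          have : lg ^ 3 ≤ lg ^ 4 := pow_le_pow_right₀ hlg1 (by norm_num)
          gcongr
          norm_num
      _ = _ := by
          rw [mul_pow, mul_pow, mul_pow, Real.sq_sqrt (Nat.cast_nonneg _)]
          ring
  exact le_of_pow_le_pow_left₀ (by norm_num) (by positivity) hsq

/-- **The large sieve inequality.** -/
theorem ls (N : ℕ) (hN : 1 ≤ N) (P : Finset ℕ) (hP : ∀ n ∈ P, 1 ≤ n ∧ n ≤ 2 * N) (W : Finset ℝ)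
    (hW : Sep W) (x T Δ μ : ℝ) (hWT : ∀ t ∈ W, x ≤ t ∧ t ≤ x + T) (hΔ : (N : ℝ) ≤ Δ) (hμ : 0 ≤ μ)
    (hK : ∀ t : ℝ, Δ < |t| → |t| ≤ T → ‖∑ n ∈ P, ph t n‖ ≤ μ) (b : ℕ → ℂ) :
    ∑ t ∈ W, ‖∑ n ∈ P, b n * ph t n‖ ^ 2 ≤
      (10 * Δ * (1 + Real.log (2 * N)) ^ 2 * Real.sqrt P.card + W.card * μ) * ∑ n ∈ P, ‖b n‖ ^ 2 := by
  classical
  have hN1 : (1 : ℝ) ≤ N := by exact_mod_cast hN
  have hΔ1 : 1 ≤ Δ := hN1.trans hΔ
  apply schur
  · positivity
  · intro t ht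
    set Wn := W.filter (fun s => |t - s| ≤ Δ) with hWn
    have h1 : ∑ s ∈ Wn, ‖∑ n ∈ P, ph (t - s) n‖ ≤
        10 * Δ * (1 + Real.log (2 * N)) ^ 2 * Real.sqrt P.card := by
      set S : Finset ℝ := Wn.image (fun s => t - s) with hS
      have hinj : Set.InjOn (fun s : ℝ => t - s) (Wn : Set ℝ) := by
        intro s _ s' _ h
        simpa using h
      have h2 : ∑ s ∈ Wn, ‖∑ n ∈ P, ph (t - s) n‖ = ∑ s ∈ S, ‖∑ n ∈ P, ph s n‖ := by
        rw [hS, sum_image hinj]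
      rw [h2]
      apply near N hN P hP S _ Δ hΔ
      · intro s hs
        rw [hS, mem_image] at hs
        obtain ⟨r, hr, rfl⟩ := hs
        exact (mem_filter.1 hr).2
      · intro s hs s' hs' hne
        rw [hS, mem_image] at hs hs'
        obtain ⟨r, hr, rfl⟩ := hs
        obtain ⟨r', hr', rfl⟩ := hs'
        have h3 : r ≠ r' := by rintro rfl; exact hne rfl
        have h4 := hW r (mem_filter.1 hr).1 r' (mem_filter.1 hr').1 h3
        rw [show t - r - (t - r') = -(r - r') by ring, abs_neg]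
        exact h4
    have h2 : ∑ s ∈ W.filter (fun s => ¬ |t - s| ≤ Δ), ‖∑ n ∈ P, ph (t - s) n‖ ≤ W.card * μ := by
      have h3 : ∀ s ∈ W.filter (fun s => ¬ |t - s| ≤ Δ), ‖∑ n ∈ P, ph (t - s) n‖ ≤ μ := by
        intro s hs
        rw [mem_filter, not_le] at hs
        apply hK _ hs.2
        have a1 := hWT t ht
        have a2 := hWT s hs.1
        rw [abs_le]
        constructor <;> linarith
      refine (sum_le_card_nsmul _ _ _ h3).trans ?_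
      rw [nsmul_eq_mul]
      have : ((W.filter (fun s => ¬ |t - s| ≤ Δ)).card : ℝ) ≤ W.card := by
        exact_mod_cast card_filter_le _ _
      gcongr
    rw [← sum_filter_add_sum_filter_not W (fun s => |t - s| ≤ Δ)]
    exact add_le_add h1 h2

end Pool.Agent.R327.SI
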