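import Pool.Agent.R327.SIAq

/-!
Mean values over well-spaced sets for supports with a small kernel: intervals and arithmetic progressions.
-/

set_option autoImplicit false

namespace Pool.Agent.R327.SI

open Finset
open Pool.Agent.TH705.DL (ph ph_norm ph_conj ph_eq Sep)

/-- The support `P` has at most `2 N^(1/2+κ)` elements and its kernel is small for `N^(1+2κ) < |t| ≤ T`. -/
def Good (N : ℕ) (P : Finset ℕ) (κ T C0 : ℝ) : Prop :=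
  (∀ n ∈ P, 1 ≤ n ∧ n ≤ 2 * N) ∧ (P.card : ℝ) ≤ 2 * (N : ℝ) ^ (1 / 2 + κ) ∧
    ∀ t : ℝ, (N : ℝ) ^ (1 + 2 * κ) < |t| → |t| ≤ T →
      ‖∑ n ∈ P, ph t n‖ ≤ C0 * (1 + Real.log (2 * N)) * (N : ℝ) ^ (1 / 2 - κ)

/-- the terms of an arithmetic progression -/
def AP (a d L : ℕ) : Finset ℕ := (range L).image (fun j => a + d * j)

theorem sum_AP (a d L : ℕ) (hd : 1 ≤ d) (f : ℕ → ℂ) : ∑ n ∈ AP a d L, f n = ∑ j ∈ range L, f (a + d * j) := by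
  unfold AP
  rw [sum_image]
  intro i _ j _ h
  simp only [add_right_inj] at h
  exact Nat.eq_of_mul_eq_mul_left (by omega) h

theorem card_AP (a d L : ℕ) : (AP a d L).card ≤ L := by
  unfold AP
  exact card_image_le.trans (by simp)

theorem mem_AP {a d L n : ℕ} : n ∈ AP a d L ↔ ∃ j < L, n = a + d * j := by
  unfold AP
  simp only [mem_image, mem_range]
  constructor
  · rintro ⟨j, hj, rfl⟩; exact ⟨j, hj, rfl⟩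
  · rintro ⟨j, hj, rfl⟩; exact ⟨j, hj, rfl⟩

theorem goodI : ∃ C : ℝ, 1 ≤ C ∧ ∀ N a L : ℕ, 1 ≤ N → N ≤ a → a + L ≤ 2 * N + 1 →
    (L : ℝ) ≤ 2 * (N : ℝ) ^ (5 / 9 : ℝ) → ∀ T : ℝ, T ≤ 4 * (N : ℝ) ^ 2 →
      Good N (AP a 1 L) (1 / 18) T C := by
  obtain ⟨C, hC, h⟩ := kerI
  refine ⟨C, hC, ?_⟩
  intro N a L hN hNa haL hL T hT
  refine ⟨?_, ?_, ?_⟩
  · intro n hn
    obtain ⟨j, hj, rfl⟩ := mem_AP.1 hn
    constructor <;> omega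
  · calc ((AP a 1 L).card : ℝ) ≤ L := by exact_mod_cast card_AP a 1 L
      _ ≤ _ := by
        rw [show (1 / 2 + 1 / 18 : ℝ) = 5 / 9 by norm_num]
        exact hL
  · intro t ht1 ht2
    rw [sum_AP a 1 L le_rfl]
    rw [show (1 / 2 - 1 / 18 : ℝ) = 4 / 9 by norm_num]
    rw [show (1 + 2 * (1 / 18) : ℝ) = 10 / 9 by norm_num] at ht1
    exact h N a L hN hNa haL hL t ht1.le (ht2.trans hT)

theorem goodAP (A : ℝ) (hA : 1 ≤ A) : ∃ c : ℝ, 0 < c ∧ c ≤ 1 / 64 ∧ ∃ C : ℝ, 1 ≤ C ∧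
    ∀ N a d L : ℕ, 1 ≤ N → 1 ≤ d → N ≤ a → a + d * L ≤ 2 * N + d →
    (L : ℝ) ≤ 2 * (N : ℝ) ^ (1 / 2 + c) → ∀ T : ℝ, T ≤ (2 * N : ℝ) ^ A →
      Good N (AP a d L) c T C := by
  obtain ⟨c, hc0, hc, C, hC, h⟩ := kerAP A hA
  refine ⟨c, hc0, hc, C, hC, ?_⟩
  intro N a d L hN hd hNa haL hL T hT
  refine ⟨?_, ?_, ?_⟩
  · intro n hn
    obtain ⟨j, hj, rfl⟩ := mem_AP.1 hn
    have h1 : d * (j + 1) ≤ d * L := Nat.mul_le_mul_left d hj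
    rw [Nat.mul_add, Nat.mul_one] at h1
    constructor <;> omega
  · calc ((AP a d L).card : ℝ) ≤ L := by exact_mod_cast card_AP a d L
      _ ≤ _ := hL
  · intro t ht1 ht2
    rw [sum_AP a d L hd]
    exact h N a d L hN hd hNa haL hL t ht1.le (ht2.trans hT)

theorem base {N : ℕ} {P : Finset ℕ} {κ T C0 : ℝ} (hN : 1 ≤ N) (hκ0 : 0 ≤ κ) (hC0 : 0 ≤ C0)
    (hG : Good N P κ T C0) (W : Finset ℝ) (hW : Sep W) (x : ℝ) (hWT : ∀ t ∈ W, x ≤ t ∧ t ≤ x + T)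
    (b : ℕ → ℂ) :
    ∑ t ∈ W, ‖∑ n ∈ P, b n * ph t n‖ ^ 2 ≤ (1 + Real.log (2 * N)) ^ 2 *
      (20 * (N : ℝ) ^ (5 / 4 + 5 * κ / 2) + W.card * (C0 * (N : ℝ) ^ (1 / 2 - κ))) *
        ∑ n ∈ P, ‖b n‖ ^ 2 := by
  obtain ⟨hG1, hG2, hG3⟩ := hG
  have hN1 : (1 : ℝ) ≤ N := by exact_mod_cast hN
  have hN0 : (0 : ℝ) < N := by linarith
  have hlog0 : 0 ≤ Real.log (2 * (N : ℝ)) := Real.log_nonneg (by linarith)
  have hΔ : (N : ℝ) ≤ (N : ℝ) ^ (1 + 2 * κ) := by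
    calc (N : ℝ) = (N : ℝ) ^ (1 : ℝ) := (Real.rpow_one _).symm
      _ ≤ _ := Real.rpow_le_rpow_of_exponent_le hN1 (by linarith)
  have h := ls N hN P hG1 W hW x T ((N : ℝ) ^ (1 + 2 * κ))
    (C0 * (1 + Real.log (2 * N)) * (N : ℝ) ^ (1 / 2 - κ)) hWT hΔ (by positivity)
    (fun t h1 h2 => hG3 t h1 h2) b
  refine h.trans ?_
  have hG0 : 0 ≤ ∑ n ∈ P, ‖b n‖ ^ 2 := sum_nonneg fun _ _ => by positivity
  apply mul_le_mul_of_nonneg_right _ hG0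
  set lg : ℝ := 1 + Real.log (2 * N) with hlg
  have hlg1 : 1 ≤ lg := by linarith
  have hs : Real.sqrt P.card ≤ 2 * (N : ℝ) ^ (1 / 4 + κ / 2) := by
    rw [Real.sqrt_le_left (by positivity)]
    calc (P.card : ℝ) ≤ 2 * (N : ℝ) ^ (1 / 2 + κ) := hG2
      _ ≤ 4 * (N : ℝ) ^ (1 / 2 + κ) := by
        have : 0 ≤ (N : ℝ) ^ (1 / 2 + κ) := by positivity
        linarith
      _ = (2 * (N : ℝ) ^ (1 / 4 + κ / 2)) ^ 2 := by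
        rw [mul_pow, ← Real.rpow_natCast ((N : ℝ) ^ (1 / 4 + κ / 2)) 2, ← Real.rpow_mul hN0.le]
        norm_num
        congr 1
        ring
  have e1 : 10 * (N : ℝ) ^ (1 + 2 * κ) * lg ^ 2 * Real.sqrt P.card ≤
      lg ^ 2 * (20 * (N : ℝ) ^ (5 / 4 + 5 * κ / 2)) := by
    calc 10 * (N : ℝ) ^ (1 + 2 * κ) * lg ^ 2 * Real.sqrt P.card ≤
          10 * (N : ℝ) ^ (1 + 2 * κ) * lg ^ 2 * (2 * (N : ℝ) ^ (1 / 4 + κ / 2)) := by gcongr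
      _ = lg ^ 2 * (20 * ((N : ℝ) ^ (1 + 2 * κ) * (N : ℝ) ^ (1 / 4 + κ / 2))) := by ring
      _ = _ := by
        rw [← Real.rpow_add hN0,
          show (1 + 2 * κ + (1 / 4 + κ / 2) : ℝ) = 5 / 4 + 5 * κ / 2 by ring]
  have e2 : (W.card : ℝ) * (C0 * lg * (N : ℝ) ^ (1 / 2 - κ)) ≤
      lg ^ 2 * (W.card * (C0 * (N : ℝ) ^ (1 / 2 - κ))) := by
    have : lg ≤ lg ^ 2 := by nlinarith
    calc (W.card : ℝ) * (C0 * lg * (N : ℝ) ^ (1 / 2 - κ)) =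
          lg * (W.card * (C0 * (N : ℝ) ^ (1 / 2 - κ))) := by ring
      _ ≤ _ := by gcongr
  calc _ ≤ lg ^ 2 * (20 * (N : ℝ) ^ (5 / 4 + 5 * κ / 2)) +
        lg ^ 2 * (W.card * (C0 * (N : ℝ) ^ (1 / 2 - κ))) := add_le_add e1 e2
    _ = _ := by ring

theorem lg_le {s : ℝ} (hs : 0 < s) {N : ℕ} (hN : 1 ≤ N) :
    1 + Real.log (2 * N) ≤ (1 + 1 / s) * (2 * (N : ℝ)) ^ s := by
  have hN1 : (1 : ℝ) ≤ N := by exact_mod_cast hN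
  have h1 := Real.log_le_rpow_div (x := 2 * (N : ℝ)) (by positivity) hs
  have h2 : (1 : ℝ) ≤ (2 * (N : ℝ)) ^ s := Real.one_le_rpow (by linarith) hs.le
  have h3 : (1 + 1 / s) * (2 * (N : ℝ)) ^ s = (2 * (N : ℝ)) ^ s + (2 * (N : ℝ)) ^ s / s := by ring
  rw [h3]
  linarith

/-- coefficients bounded by one -/
theorem base2 {N : ℕ} {P : Finset ℕ} {κ T C0 : ℝ} (hN : 1 ≤ N) (hκ0 : 0 ≤ κ) (hκ : κ ≤ 1 / 18)
    (hC0 : 0 ≤ C0) (hG : Good N P κ T C0) (W : Finset ℝ) (hW : Sep W) (x : ℝ)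
    (hWT : ∀ t ∈ W, x ≤ t ∧ t ≤ x + T) (b : ℕ → ℂ) (hb : ∀ n, ‖b n‖ ≤ 1) :
    ∑ t ∈ W, ‖∑ n ∈ P, b n * ph t n‖ ^ 2 ≤
      300000 * (N : ℝ) ^ 2 + 2 * C0 * ((1 + Real.log (2 * N)) ^ 2 * (W.card * N)) := by
  have hN1 : (1 : ℝ) ≤ N := by exact_mod_cast hN
  have hN0 : (0 : ℝ) < N := by linarith
  have hlog0 : 0 ≤ Real.log (2 * (N : ℝ)) := Real.log_nonneg (by linarith)
  refine (base hN hκ0 hC0 hG W hW x hWT b).trans ?_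
  obtain ⟨hG1, hG2, hG3⟩ := hG
  have hsum : ∑ n ∈ P, ‖b n‖ ^ 2 ≤ 2 * (N : ℝ) ^ (1 / 2 + κ) := by
    calc ∑ n ∈ P, ‖b n‖ ^ 2 ≤ ∑ n ∈ P, (1 : ℝ) := by
          apply sum_le_sum
          intro n _
          exact pow_le_one₀ (norm_nonneg _) (hb n)
      _ = P.card := by simp
      _ ≤ _ := hG2
  set lg : ℝ := 1 + Real.log (2 * N) with hlg
  have hlg1 : 1 ≤ lg := by linarith
  have hlg2 : lg ^ 2 ≤ 5476 * (N : ℝ) ^ (1 / 18 : ℝ) := by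
    have h1 := lg_le (s := 1 / 36) (by norm_num) hN
    have h2 : (2 * (N : ℝ)) ^ (1 / 36 : ℝ) ≤ 2 * (N : ℝ) ^ (1 / 36 : ℝ) := by
      rw [Real.mul_rpow (by norm_num) hN0.le]
      have : (2 : ℝ) ^ (1 / 36 : ℝ) ≤ 2 := by
        calc (2 : ℝ) ^ (1 / 36 : ℝ) ≤ 2 ^ (1 : ℝ) :=
              Real.rpow_le_rpow_of_exponent_le (by norm_num) (by norm_num)
          _ = 2 := Real.rpow_one _
      gcongr
    have h3 : lg ≤ 74 * (N : ℝ) ^ (1 / 36 : ℝ) := by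
      calc lg ≤ (1 + 1 / (1 / 36 : ℝ)) * (2 * (N : ℝ)) ^ (1 / 36 : ℝ) := h1
        _ ≤ (1 + 1 / (1 / 36 : ℝ)) * (2 * (N : ℝ) ^ (1 / 36 : ℝ)) := by gcongr
        _ = _ := by norm_num; ring
    calc lg ^ 2 ≤ (74 * (N : ℝ) ^ (1 / 36 : ℝ)) ^ 2 := by gcongr
      _ = 5476 * ((N : ℝ) ^ (1 / 36 : ℝ)) ^ 2 := by ring
      _ = _ := by
        rw [← Real.rpow_natCast ((N : ℝ) ^ (1 / 36 : ℝ)) 2, ← Real.rpow_mul hN0.le]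
        norm_num
  calc lg ^ 2 * (20 * (N : ℝ) ^ (5 / 4 + 5 * κ / 2) + W.card * (C0 * (N : ℝ) ^ (1 / 2 - κ))) *
        ∑ n ∈ P, ‖b n‖ ^ 2
      ≤ lg ^ 2 * (20 * (N : ℝ) ^ (5 / 4 + 5 * κ / 2) + W.card * (C0 * (N : ℝ) ^ (1 / 2 - κ))) *
        (2 * (N : ℝ) ^ (1 / 2 + κ)) := by gcongr
    _ = 40 * (lg ^ 2 * ((N : ℝ) ^ (5 / 4 + 5 * κ / 2) * (N : ℝ) ^ (1 / 2 + κ))) +
        2 * C0 * (lg ^ 2 * (W.card * ((N : ℝ) ^ (1 / 2 - κ) * (N : ℝ) ^ (1 / 2 + κ)))) := by ring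
    _ = 40 * (lg ^ 2 * (N : ℝ) ^ (7 / 4 + 7 * κ / 2)) + 2 * C0 * (lg ^ 2 * (W.card * N)) := by
        rw [← Real.rpow_add hN0, ← Real.rpow_add hN0]
        rw [show (5 / 4 + 5 * κ / 2 + (1 / 2 + κ) : ℝ) = 7 / 4 + 7 * κ / 2 by ring,
          show (1 / 2 - κ + (1 / 2 + κ) : ℝ) = 1 by ring, Real.rpow_one]
    _ ≤ 40 * (5476 * (N : ℝ) ^ (1 / 18 : ℝ) * (N : ℝ) ^ (7 / 4 + 7 * κ / 2)) +
        2 * C0 * (lg ^ 2 * (W.card * N)) := by gcongr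
    _ ≤ 40 * (5476 * (N : ℝ) ^ 2) + 2 * C0 * (lg ^ 2 * (W.card * N)) := by
        have : (N : ℝ) ^ (1 / 18 : ℝ) * (N : ℝ) ^ (7 / 4 + 7 * κ / 2) ≤ (N : ℝ) ^ 2 := by
          rw [← Real.rpow_add hN0, ← Real.rpow_two]
          exact Real.rpow_le_rpow_of_exponent_le hN1 (by linarith)
        nlinarith
    _ ≤ _ := by
        have : 0 ≤ (N : ℝ) ^ 2 := by positivity
        linarith

theorem base1 {N : ℕ} {P : Finset ℕ} {κ T C0 : ℝ} (hN : 1 ≤ N) (hκ0 : 0 ≤ κ) (hκ : κ ≤ 1 / 18)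
    (hC0 : 1 ≤ C0) (hG : Good N P κ T C0) (W : Finset ℝ) (hW : Sep W) (x : ℝ)
    (hWT : ∀ t ∈ W, x ≤ t ∧ t ≤ x + T) (b : ℕ → ℂ) (hb : ∀ n, ‖b n‖ ≤ 1) :
    ∑ t ∈ W, ‖∑ n ∈ P, b n * ph t n‖ ^ 2 ≤
      (300000 * C0) * ((N : ℝ) ^ 2 + (1 + Real.log (2 * N)) ^ 2 * (W.card * N)) := by
  refine (base2 hN hκ0 hκ (by linarith) hG W hW x hWT b hb).trans ?_
  rw [mul_add]
  apply add_le_add
  · have : 0 ≤ (N : ℝ) ^ 2 := by positivity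
    nlinarith
  · have : 0 ≤ (1 + Real.log (2 * N)) ^ 2 * (W.card * (N : ℝ)) := by positivity
    have h2 : 2 * C0 ≤ 300000 * C0 := by linarith
    exact mul_le_mul_of_nonneg_right h2 this

/-- no far part if `T ≤ N` -/
theorem base0 {N : ℕ} {P : Finset ℕ} {κ T C0 : ℝ} (hN : 1 ≤ N) (hκ0 : 0 ≤ κ) (hκ : κ ≤ 1 / 18)
    (hG : Good N P κ T C0) (hTN : T ≤ N) (W : Finset ℝ) (hW : Sep W) (x : ℝ)
    (hWT : ∀ t ∈ W, x ≤ t ∧ t ≤ x + T) (b : ℕ → ℂ) (hb : ∀ n, ‖b n‖ ≤ 1) :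
    ∑ t ∈ W, ‖∑ n ∈ P, b n * ph t n‖ ^ 2 ≤ 300000 * (N : ℝ) ^ 2 := by
  have hG' : Good N P κ T 0 := by
    refine ⟨hG.1, hG.2.1, ?_⟩
    intro t ht1 ht2
    exfalso
    have hN1 : (1 : ℝ) ≤ N := by exact_mod_cast hN
    have h1 : (N : ℝ) ≤ (N : ℝ) ^ (1 + 2 * κ) := by
      calc (N : ℝ) = (N : ℝ) ^ (1 : ℝ) := (Real.rpow_one _).symm
        _ ≤ _ := Real.rpow_le_rpow_of_exponent_le hN1 (by linarith)
    linarith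
  have h := base2 hN hκ0 hκ le_rfl hG' W hW x hWT b hb
  simpa using h

/-- large values: no loss -/
theorem largeV {N : ℕ} {P : Finset ℕ} {κ T C0 : ℝ} (hN : 1 ≤ N) (hκ0 : 0 ≤ κ) (hκ : κ ≤ 1 / 18)
    (hC0 : 1 ≤ C0) (hG : Good N P κ T C0) (W : Finset ℝ) (hW : Sep W) (x : ℝ)
    (hWT : ∀ t ∈ W, x ≤ t ∧ t ≤ x + T) (b : ℕ → ℂ) (hb : ∀ n, ‖b n‖ ≤ 1) (V : ℝ) (hV : 0 < V)
    (hVN : 600000 * C0 * ((1 + Real.log (2 * N)) ^ 2 * N) ≤ V ^ 2)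
    (hD : ∀ t ∈ W, V ≤ ‖∑ n ∈ P, b n * ph t n‖) :
    ∑ t ∈ W, ‖∑ n ∈ P, b n * ph t n‖ ^ 2 ≤ 600000 * C0 * (N : ℝ) ^ 2 ∧
      (W.card : ℝ) ≤ 600000 * C0 * ((N : ℝ) ^ 2 / V ^ 2) := by
  have h := base1 hN hκ0 hκ hC0 hG W hW x hWT b hb
  have h1 : (W.card : ℝ) * V ^ 2 ≤ ∑ t ∈ W, ‖∑ n ∈ P, b n * ph t n‖ ^ 2 := by
    calc (W.card : ℝ) * V ^ 2 = ∑ t ∈ W, V ^ 2 := by simp
      _ ≤ _ := by
        apply sum_le_sum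
        intro t ht
        exact pow_le_pow_left₀ hV.le (hD t ht) 2
  have h2 : (300000 * C0) * ((1 + Real.log (2 * N)) ^ 2 * (W.card * N)) ≤ W.card * V ^ 2 / 2 := by
    have : (W.card : ℝ) * (600000 * C0 * ((1 + Real.log (2 * N)) ^ 2 * N)) ≤ W.card * V ^ 2 := by gcongr
    linarith
  have h3 : ∑ t ∈ W, ‖∑ n ∈ P, b n * ph t n‖ ^ 2 ≤ 600000 * C0 * (N : ℝ) ^ 2 := by
    rw [mul_add] at h
    linarith
  refine ⟨h3, ?_⟩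
  rw [← mul_div_assoc, le_div_iff₀ (by positivity)]
  exact h1.trans h3

end Pool.Agent.R327.SI
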