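import Mathlib

set_option autoImplicit false

/-!
# Asymptotics of `P(x)^(1/d)` and the equation `e F(u) = c F(a)`
-/

namespace Pool.Agent.R327.Vis

open Filter Topology Polynomial

/-- `P(x)^(1/d) - lc^(1/d) x` has a limit. -/
theorem root_asymp (P : ℝ[X]) (hd : 0 < P.natDegree) (hlc : 0 < P.leadingCoeff) :
    ∃ β : ℝ, Tendsto (fun x : ℝ => (P.eval x) ^ ((P.natDegree : ℝ)⁻¹) -
      P.leadingCoeff ^ ((P.natDegree : ℝ)⁻¹) * x) atTop (𝓝 β) := by
  set d := P.natDegree with hdd
  set Q := P.reverse with hQ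
  have hQ0 : Q.eval 0 = P.leadingCoeff := by
    rw [← coeff_zero_eq_eval_zero, hQ, coeff_zero_reverse]
  have hQ0' : Q.eval 0 ≠ 0 := by rw [hQ0]; exact hlc.ne'
  have hder : HasDerivAt (fun t : ℝ => (Q.eval t) ^ ((d : ℝ)⁻¹))
      (Q.derivative.eval 0 * (d : ℝ)⁻¹ * (Q.eval 0) ^ ((d : ℝ)⁻¹ - 1)) 0 :=
    (Q.hasDerivAt 0).rpow_const (Or.inl hQ0')
  refine ⟨Q.derivative.eval 0 * (d : ℝ)⁻¹ * (Q.eval 0) ^ ((d : ℝ)⁻¹ - 1), ?_⟩
  rw [hasDerivAt_iff_tendsto_slope_zero] at hder
  have h1 : Tendsto (fun x : ℝ => x⁻¹) atTop (𝓝[≠] (0 : ℝ)) := by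
    rw [tendsto_nhdsWithin_iff]
    refine ⟨tendsto_inv_atTop_zero, ?_⟩
    filter_upwards [eventually_gt_atTop (0 : ℝ)] with x hx
    exact (inv_pos.2 hx).ne'
  have h2 := hder.comp h1
  refine h2.congr' ?_
  have hcont : Tendsto (fun x : ℝ => Q.eval x⁻¹) atTop (𝓝 (Q.eval 0)) :=
    (Q.continuous.tendsto 0).comp tendsto_inv_atTop_zero
  have hpos : ∀ᶠ x : ℝ in atTop, 0 < Q.eval x⁻¹ :=
    hcont.eventually (eventually_gt_nhds (by rw [hQ0]; exact hlc))
  filter_upwards [hpos, eventually_gt_atTop (0 : ℝ)] with x hx hx0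
  simp only [Function.comp, zero_add, smul_eq_mul, inv_inv]
  have h3 : P.eval x = Q.eval x⁻¹ * x ^ d := by
    have : Invertible x := invertibleOfNonzero hx0.ne'
    have h4 := eval₂_reverse_mul_pow (RingHom.id ℝ) x P
    simp only [invOf_eq_inv, eval₂_id] at h4
    rw [hQ, hdd, h4]
  rw [h3, Real.mul_rpow hx.le (by positivity), Real.pow_rpow_inv_natCast hx0.le (by omega), hQ0]
  ring

/-- A convergent function with integer values is eventually constant. -/
theorem eventually_const {l : Filter ℕ} [l.NeBot] (f : ℕ → ℤ) (x : ℝ)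
    (h : Tendsto (fun n => (f n : ℝ)) l (𝓝 x)) : ∃ k : ℤ, (k : ℝ) = x ∧ ∀ᶠ n in l, f n = k := by
  have h1 : ∀ᶠ n in l, |(f n : ℝ) - x| < 1 / 2 := by
    have := h.eventually (Metric.ball_mem_nhds x (by norm_num : (0 : ℝ) < 1 / 2))
    filter_upwards [this] with n hn
    rwa [← Real.dist_eq]
  obtain ⟨n0, hn0⟩ := h1.exists
  have h2 : ∀ᶠ n in l, f n = f n0 := by
    filter_upwards [h1] with n hn
    have h3 : |(f n : ℝ) - f n0| < 1 := by
      have : (f n : ℝ) - f n0 = ((f n : ℝ) - x) - ((f n0 : ℝ) - x) := by ring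
      rw [this]
      have := abs_sub (((f n : ℝ) - x)) ((f n0 : ℝ) - x)
      linarith
    have h4 : |f n - f n0| < 1 := by exact_mod_cast h3
    have := Int.abs_lt_one_iff.1 h4
    omega
  refine ⟨f n0, ?_, h2⟩
  have h3 : Tendsto (fun n => (f n : ℝ)) l (𝓝 ((f n0 : ℤ) : ℝ)) := by
    refine tendsto_const_nhds.congr' ?_
    filter_upwards [h2] with n hn
    rw [hn]
  exact tendsto_nhds_unique h3 h

/-- A polynomial with an affine self-similarity of ratio less than one has only one root. -/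
theorem unique_root (F : ℂ[X]) (hF : F ≠ 0) (r s : ℂ) (hr0 : r ≠ 0) (hr1 : ‖r‖ < 1)
    (h : ∀ z : ℂ, F.eval z = 0 → F.eval (r * z + s) = 0) (z w : ℂ) (hz : F.eval z = 0)
    (hw : F.eval w = 0) : z = w := by
  have key : ∀ z : ℂ, F.eval z = 0 → z = s / (1 - r) := by
    intro z hz
    have h1r : (1 : ℂ) - r ≠ 0 := by
      intro h0
      have : r = 1 := by linear_combination -h0
      rw [this] at hr1
      simp at hr1
    set c := s / (1 - r) with hc
    have hcs : r * c + s = c := by
      rw [hc]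
      field_simp
      ring
    -- the orbit
    have horb : ∀ n : ℕ, F.eval (r ^ n * (z - c) + c) = 0 := by
      intro n
      induction n with
      | zero => simpa using hz
      | succ n ih =>
        have := h _ ih
        have e : r * (r ^ n * (z - c) + c) + s = r ^ (n + 1) * (z - c) + c := by
          rw [pow_succ]
          linear_combination hcs
        rwa [e] at this
    by_contra hne
    have hinj : Function.Injective (fun n : ℕ => r ^ n * (z - c) + c) := by
      intro m n hmn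
      simp only at hmn
      have hzc : z - c ≠ 0 := sub_ne_zero.2 hne
      have h2 : r ^ m = r ^ n := by
        have : r ^ m * (z - c) = r ^ n * (z - c) := by linear_combination hmn
        exact mul_right_cancel₀ hzc this
      have h3 : ‖r‖ ^ m = ‖r‖ ^ n := by rw [← norm_pow, ← norm_pow, h2]
      exact (pow_right_strictAnti₀ (norm_pos_iff.2 hr0) hr1).injective h3
    have hfin : (Set.range (fun n : ℕ => r ^ n * (z - c) + c)).Finite := by
      apply (F.roots.toFinset.finite_toSet).subset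
      rintro _ ⟨n, rfl⟩
      simp only [Finset.mem_coe, Multiset.mem_toFinset, mem_roots hF]
      exact horb n
    exact Set.infinite_range_of_injective hinj hfin
  rw [key z hz, key w hw]

end Pool.Agent.R327.Vis
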