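import Pool.Agent.R327.VisA

set_option autoImplicit false

namespace Pool.Agent.R327.Vis

open Filter Topology Polynomial

/-- the real polynomial -/
noncomputable def FR (F : ℤ[X]) : ℝ[X] := F.map (Int.castRingHom ℝ)

theorem FR_natDegree (F : ℤ[X]) : (FR F).natDegree = F.natDegree :=
  natDegree_map_eq_of_injective Int.cast_injective F

theorem FR_lc (F : ℤ[X]) : (FR F).leadingCoeff = (F.leadingCoeff : ℝ) := by
  unfold FR
  rw [leadingCoeff_map_of_injective Int.cast_injective]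
  simp

theorem FR_eval (F : ℤ[X]) (n : ℕ) : (FR F).eval (n : ℝ) = ((F.eval (n : ℤ) : ℤ) : ℝ) := by
  have h := eval_intCast_map (Int.castRingHom ℝ) F (n : ℤ)
  rw [Int.cast_natCast] at h
  unfold FR
  rw [h]
  rfl

theorem FR_tendsto (F : ℤ[X]) (hlc : 0 < F.leadingCoeff) (hd : 0 < F.natDegree) :
    Tendsto (fun x : ℝ => (FR F).eval x) atTop atTop := by
  apply Polynomial.tendsto_atTop_of_leadingCoeff_nonneg
  · rw [← natDegree_pos_iff_degree_pos, FR_natDegree]
    exact hd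
  · rw [FR_lc]
    exact_mod_cast hlc.le

theorem F_tendsto (F : ℤ[X]) (hlc : 0 < F.leadingCoeff) (hd : 0 < F.natDegree) :
    Tendsto (fun n : ℕ => F.eval (n : ℤ)) atTop atTop := by
  have h1 : Tendsto (fun n : ℕ => (FR F).eval (n : ℝ)) atTop atTop :=
    (FR_tendsto F hlc hd).comp tendsto_natCast_atTop_atTop
  have h2 : (fun n : ℕ => (FR F).eval (n : ℝ)) = fun n : ℕ => ((F.eval (n : ℤ) : ℤ) : ℝ) := by
    funext n
    exact FR_eval F n
  rw [h2] at h1
  exact tendsto_intCast_atTop_iff.1 h1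

/-- If `e F(u) = c F(x)` along a filter with `x → ∞`, then `u - λ x` converges. -/
theorem diff_tendsto (F : ℤ[X]) (hlc : 0 < F.leadingCoeff) (hd : 0 < F.natDegree) (e c : ℕ)
    (hc : 1 ≤ c) (he : 1 ≤ e) : ∃ κ : ℝ, ∀ (l : Filter ℕ) (x u : ℕ → ℕ), Tendsto x l atTop →
      (∀ᶠ a in l, (e : ℤ) * F.eval (u a : ℤ) = c * F.eval (x a : ℤ)) →
      Tendsto (fun a => (u a : ℝ) - ((c : ℝ) / e) ^ ((F.natDegree : ℝ)⁻¹) * x a) l (𝓝 κ) := by
  obtain ⟨β, hβ⟩ := root_asymp (FR F) (by rw [FR_natDegree]; exact hd)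
    (by rw [FR_lc]; exact_mod_cast hlc)
  rw [FR_natDegree, FR_lc] at hβ
  set d := F.natDegree with hdd
  set lam : ℝ := ((c : ℝ) / e) ^ ((d : ℝ)⁻¹) with hlam
  set α : ℝ := (F.leadingCoeff : ℝ) ^ ((d : ℝ)⁻¹) with hα
  have hα0 : 0 < α := Real.rpow_pos_of_pos (by exact_mod_cast hlc) _
  refine ⟨(lam * β - β) / α, ?_⟩
  intro l x u hx hu
  have hc0 : (0 : ℝ) < c := by exact_mod_cast hc
  have he0 : (0 : ℝ) < e := by exact_mod_cast he
  -- u tends to infinity
  have hut : Tendsto u l atTop := by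
    rw [tendsto_atTop]
    intro B
    obtain ⟨M, hM⟩ : ∃ M : ℤ, ∀ n : ℕ, n ≤ B → F.eval (n : ℤ) ≤ M := by
      refine ⟨∑ n ∈ Finset.range (B + 1), |F.eval (n : ℤ)|, ?_⟩
      intro n hn
      have h1 : |F.eval (n : ℤ)| ≤ ∑ n ∈ Finset.range (B + 1), |F.eval (n : ℤ)| :=
        Finset.single_le_sum (f := fun n : ℕ => |F.eval (n : ℤ)|) (fun i _ => abs_nonneg _)
          (Finset.mem_range.2 (by omega))
      exact (le_abs_self _).trans h1
    have h2 : ∀ᶠ a in l, (e : ℤ) * M < F.eval (x a : ℤ) :=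
      ((F_tendsto F hlc hd).comp hx).eventually (eventually_gt_atTop _)
    have h2' : ∀ᶠ a in l, 0 < F.eval (x a : ℤ) :=
      ((F_tendsto F hlc hd).comp hx).eventually (eventually_gt_atTop _)
    filter_upwards [h2, h2', hu] with a ha ha0 hua
    by_contra hlt
    have h3 := hM (u a) (by omega)
    have h4 : (e : ℤ) * F.eval (u a : ℤ) ≤ e * M :=
      mul_le_mul_of_nonneg_left h3 (by positivity)
    have h5 : F.eval (x a : ℤ) ≤ c * F.eval (x a : ℤ) := by
      have : (1 : ℤ) ≤ c := by exact_mod_cast hc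
      nlinarith
    linarith
  have t1 := hβ.comp (tendsto_natCast_atTop_atTop.comp hut)
  have t2 := hβ.comp (tendsto_natCast_atTop_atTop.comp hx)
  have t3 : Tendsto (fun a => (lam * ((FR F).eval ((x a : ℕ) : ℝ) ^ ((d : ℝ)⁻¹) - α * (x a : ℝ)) -
      ((FR F).eval ((u a : ℕ) : ℝ) ^ ((d : ℝ)⁻¹) - α * (u a : ℝ))) / α) l
      (𝓝 ((lam * β - β) / α)) := ((t2.const_mul lam).sub t1).div_const α
  refine t3.congr' ?_
  have h2' : ∀ᶠ a in l, 0 < F.eval (x a : ℤ) :=
      ((F_tendsto F hlc hd).comp hx).eventually (eventually_gt_atTop _)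
  filter_upwards [hu, h2'] with a ha hx0
  have h3 : (FR F).eval ((u a : ℕ) : ℝ) = (c : ℝ) / e * (FR F).eval ((x a : ℕ) : ℝ) := by
    rw [FR_eval, FR_eval]
    have h4 : (e : ℝ) * ((F.eval (u a : ℤ) : ℤ) : ℝ) = c * ((F.eval (x a : ℤ) : ℤ) : ℝ) := by
      exact_mod_cast ha
    field_simp
    linarith
  have h5 : 0 ≤ (FR F).eval ((x a : ℕ) : ℝ) := by
    rw [FR_eval]
    exact_mod_cast hx0.le
  rw [h3, Real.mul_rpow (by positivity) h5, ← hlam]
  field_simp
  ring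

theorem gap_finite (F : ℤ[X]) (hlc : 0 < F.leadingCoeff) (hd : 0 < F.natDegree)
    (hroots : ∃ z w : ℂ, z ≠ w ∧ aeval z F = 0 ∧ aeval w F = 0)
    (e c g : ℕ) (hc : 1 ≤ c) (hce : c < e) (hg : 1 ≤ g) :
    {a : ℕ | (∃ u : ℕ, (e : ℤ) * F.eval (u : ℤ) = c * F.eval (a : ℤ)) ∧
      (∃ u : ℕ, (e : ℤ) * F.eval (u : ℤ) = c * F.eval ((a + g : ℕ) : ℤ))}.Finite := by
  by_contra hinf
  set S := {a : ℕ | (∃ u : ℕ, (e : ℤ) * F.eval (u : ℤ) = c * F.eval (a : ℤ)) ∧
      (∃ u : ℕ, (e : ℤ) * F.eval (u : ℤ) = c * F.eval ((a + g : ℕ) : ℤ))} with hS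
  have hinf' : S.Infinite := hinf
  set l : Filter ℕ := atTop ⊓ 𝓟 S with hl
  have hne : l.NeBot := by
    rw [hl, ← frequently_mem_iff_neBot]
    exact Nat.frequently_atTop_iff_infinite.2 hinf'
  have hS1 : ∀ᶠ a in l, a ∈ S := eventually_inf_principal.2 (Eventually.of_forall fun _ h => h)
  have h1 : ∀ a ∈ S, ∃ u : ℕ, (e : ℤ) * F.eval (u : ℤ) = c * F.eval (a : ℤ) := fun a ha => ha.1
  have h2 : ∀ a ∈ S, ∃ u : ℕ, (e : ℤ) * F.eval (u : ℤ) = c * F.eval ((a + g : ℕ) : ℤ) :=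
    fun a ha => ha.2
  choose! u hu using h1
  choose! u' hu' using h2
  obtain ⟨κ, hκ⟩ := diff_tendsto F hlc hd e c hc (by omega)
  have t1 := hκ l (fun a => a) u (tendsto_id.mono_left inf_le_left) (by
    filter_upwards [hS1] with a ha using hu a ha)
  have t2 := hκ l (fun a => a + g) u' ((tendsto_add_atTop_nat g).mono_left inf_le_left) (by
    filter_upwards [hS1] with a ha using hu' a ha)
  set lam : ℝ := ((c : ℝ) / e) ^ ((F.natDegree : ℝ)⁻¹) with hlam
  have hc0 : (0 : ℝ) < c := by exact_mod_cast hc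
  have he0 : (0 : ℝ) < e := by exact_mod_cast (by omega : 0 < e)
  have hg0 : (0 : ℝ) < g := by exact_mod_cast hg
  have hlam0 : 0 < lam := Real.rpow_pos_of_pos (by positivity) _
  have hlam1 : lam < 1 := by
    apply Real.rpow_lt_one (by positivity)
    · rw [div_lt_one he0]
      exact_mod_cast hce
    · have : (0 : ℝ) < F.natDegree := by exact_mod_cast hd
      positivity
  -- the difference is eventually constant
  have t3 : Tendsto (fun a => (((u' a : ℤ) - (u a : ℤ) : ℤ) : ℝ)) l (𝓝 (lam * g)) := by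
    have h3 := (t2.sub t1).add_const (lam * g)
    rw [sub_self, zero_add] at h3
    refine h3.congr ?_
    intro a
    push_cast
    ring
  obtain ⟨k, hk, -⟩ := eventually_const _ _ t3
  have t4 : Tendsto (fun a => (((g : ℤ) * (u a : ℤ) - k * (a : ℤ) : ℤ) : ℝ)) l (𝓝 (g * κ)) := by
    refine (t1.const_mul (g : ℝ)).congr ?_
    intro a
    push_cast
    rw [hk]
    ring
  obtain ⟨w, -, hw⟩ := eventually_const _ _ t4
  -- the polynomial identity
  set FC : ℂ[X] := F.map (Int.castRingHom ℂ) with hFC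
  have hFCe : ∀ n : ℕ, FC.eval (n : ℂ) = ((F.eval (n : ℤ) : ℤ) : ℂ) := by
    intro n
    have h := eval_intCast_map (Int.castRingHom ℂ) F (n : ℤ)
    rw [Int.cast_natCast] at h
    rw [hFC, h]
    rfl
  have hgC : (g : ℂ) ≠ 0 := by exact_mod_cast (by omega : g ≠ 0)
  have heC : (e : ℂ) ≠ 0 := by exact_mod_cast (by omega : e ≠ 0)
  have hpoly : C (e : ℂ) * FC.comp (C ((k : ℂ) / g) * X + C ((w : ℂ) / g)) - C (c : ℂ) * FC = 0 := by
    apply eq_zero_of_infinite_isRoot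
    have hinf2 : {a : ℕ | a ∈ S ∧ (g : ℤ) * (u a : ℤ) - k * (a : ℤ) = w}.Infinite := by
      rw [← Nat.frequently_atTop_iff_infinite]
      have h5 : ∀ᶠ a in l, a ∈ S ∧ (g : ℤ) * (u a : ℤ) - k * (a : ℤ) = w := hS1.and hw
      exact (h5.frequently).filter_mono inf_le_left
    have h6 := hinf2.image (f := fun a : ℕ => (a : ℂ)) (Nat.cast_injective.injOn)
    refine h6.mono ?_
    rintro _ ⟨a, ⟨ha, haw⟩, rfl⟩
    simp only [Set.mem_ofPred_eq, IsRoot.def, eval_sub, eval_mul, eval_C, eval_comp, eval_add, eval_X]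
    have h7 : (k : ℂ) / g * a + w / g = (u a : ℂ) := by
      rw [← haw]
      push_cast
      field_simp
      ring
    rw [h7, hFCe, hFCe]
    have h8 := hu a ha
    have h9 : (e : ℂ) * ((F.eval (u a : ℤ) : ℤ) : ℂ) = c * ((F.eval (a : ℤ) : ℤ) : ℂ) := by
      exact_mod_cast h8
    rw [h9, sub_self]
  have hF0 : FC ≠ 0 := by
    rw [hFC, Ne, Polynomial.map_eq_zero_iff (Int.cast_injective (α := ℂ))]
    rintro rfl
    simp at hlc
  obtain ⟨z1, z2, hz, hz1, hz2⟩ := hroots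
  apply hz
  have hev : ∀ z : ℂ, FC.eval z = aeval z F := by
    intro z
    rw [hFC, eval_map, aeval_def]
    rfl
  refine unique_root FC hF0 ((k : ℂ) / g) ((w : ℂ) / g) ?_ ?_ ?_ z1 z2 ?_ ?_
  · apply div_ne_zero _ hgC
    intro h0
    have : (k : ℝ) = 0 := by exact_mod_cast h0
    rw [this] at hk
    nlinarith
  · have h10 : ((k : ℂ) / g) = ((lam : ℝ) : ℂ) := by
      have : lam = (k : ℝ) / g := by rw [hk]; field_simp
      rw [this]
      push_cast
      rfl
    rw [h10, Complex.norm_real, Real.norm_eq_abs, abs_of_pos hlam0]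
    exact hlam1
  · intro z hz
    have h11 := congrArg (fun p => p.eval z) hpoly
    simp only [eval_sub, eval_mul, eval_C, eval_comp, eval_add, eval_X, eval_zero, hz, mul_zero,
      sub_zero] at h11
    exact (mul_eq_zero.1 h11).resolve_left heC
  · rw [hev]; exact hz1
  · rw [hev]; exact hz2

end Pool.Agent.R327.Vis
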