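import Mathlib

set_option autoImplicit false

/-!
# Divisors of polynomial values on average
-/

namespace Pool.Agent.R327.Vis

open Finset Polynomial

/-- the number of roots of `F` modulo `m` -/
def R (F : ℤ[X]) (m : ℕ) : ℕ := ((range m).filter (fun x : ℕ => (m : ℤ) ∣ F.eval (x : ℤ))).card

theorem eval_mod (F : ℤ[X]) (m x y : ℕ) (h : x ≡ y [MOD m]) (hx : (m : ℤ) ∣ F.eval (x : ℤ)) :
    (m : ℤ) ∣ F.eval (y : ℤ) := by
  have h1 : (m : ℤ) ∣ (y : ℤ) - x := h.dvd
  have h2 : (m : ℤ) ∣ F.eval (y : ℤ) - F.eval (x : ℤ) := h1.trans (sub_dvd_eval_sub _ _ _)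
  have h3 := dvd_add h2 hx
  simpa using h3

theorem R_mul (F : ℤ[X]) (m n : ℕ) (hm : 1 ≤ m) (hn : 1 ≤ n) (h : Nat.Coprime m n) :
    R F (m * n) ≤ R F m * R F n := by
  unfold R
  rw [← card_product]
  apply card_le_card_of_injOn (fun x => (x % m, x % n))
  · intro x hx
    rw [mem_coe, mem_filter] at hx
    rw [mem_coe, mem_product, mem_filter, mem_filter, mem_range, mem_range]
    have h1 : (m : ℤ) ∣ F.eval (x : ℤ) := (Dvd.intro _ (by push_cast; rfl)).trans hx.2
    have h2 : (n : ℤ) ∣ F.eval (x : ℤ) := (Dvd.intro_left _ (by push_cast; rfl)).trans hx.2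
    exact ⟨⟨Nat.mod_lt _ hm, eval_mod F m _ _ (Nat.mod_modEq x m).symm h1⟩,
      ⟨Nat.mod_lt _ hn, eval_mod F n _ _ (Nat.mod_modEq x n).symm h2⟩⟩
  · intro x hx y hy hxy
    rw [mem_coe, mem_filter, mem_range] at hx hy
    simp only [Prod.mk.injEq] at hxy
    have h3 : x ≡ y [MOD m * n] := (Nat.modEq_and_modEq_iff_modEq_mul h).1 ⟨hxy.1, hxy.2⟩
    exact h3.eq_of_lt_of_lt hx.1 hy.1

/-- the bound for the number of roots modulo a prime -/
def K (F : ℤ[X]) : ℕ := F.natDegree + F.leadingCoeff.natAbs + 1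

theorem R_prime (F : ℤ[X]) (hF : 0 < F.leadingCoeff) (p : ℕ) (hp : p.Prime) : R F p ≤ K F := by
  have := Fact.mk hp
  by_cases hle : p ≤ F.leadingCoeff.natAbs
  · unfold R K
    calc _ ≤ (range p).card := card_filter_le _ _
      _ = p := card_range p
      _ ≤ _ := by omega
  · push Not at hle
    have hlc : ((F.leadingCoeff : ℤ) : ZMod p) ≠ 0 := by
      intro h0
      rw [ZMod.intCast_zmod_eq_zero_iff_dvd] at h0
      have := Int.le_of_dvd hF h0
      omega
    set G : (ZMod p)[X] := F.map (Int.castRingHom (ZMod p)) with hG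
    have hG0 : G ≠ 0 := by
      intro h0
      have h1 : G.coeff F.natDegree = 0 := by rw [h0]; simp
      rw [hG, coeff_map] at h1
      exact hlc h1
    have hcard : G.roots.toFinset.card ≤ F.natDegree :=
      (Multiset.toFinset_card_le _).trans ((card_roots' G).trans natDegree_map_le)
    have h2 : R F p ≤ G.roots.toFinset.card := by
      unfold R
      apply card_le_card_of_injOn (fun x : ℕ => (x : ZMod p))
      · intro x hx
        rw [mem_coe, mem_filter] at hx
        rw [mem_coe, Multiset.mem_toFinset, mem_roots hG0, IsRoot.def]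
        have h3 := eval_intCast_map (Int.castRingHom (ZMod p)) F (x : ℤ)
        rw [Int.cast_natCast] at h3
        rw [hG, h3]
        show ((F.eval (x : ℤ) : ℤ) : ZMod p) = 0
        rw [ZMod.intCast_zmod_eq_zero_iff_dvd]
        exact hx.2
      · intro x hx y hy hxy
        rw [mem_coe, mem_filter, mem_range] at hx hy
        simp only at hxy
        rw [ZMod.natCast_eq_natCast_iff] at hxy
        exact hxy.eq_of_lt_of_lt hx.1 hy.1
    unfold K
    omega

theorem R_prod (F : ℤ[X]) (hF : 0 < F.leadingCoeff) (s : Finset ℕ) (hs : ∀ p ∈ s, p.Prime) :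
    R F (∏ p ∈ s, p) ≤ K F ^ s.card := by
  classical
  induction s using Finset.induction_on with
  | empty =>
    simp only [prod_empty, card_empty, pow_zero]
    unfold R
    calc _ ≤ (range 1).card := card_filter_le _ _
      _ = 1 := by simp
  | insert p s hps ih =>
    have hp : p.Prime := hs p (mem_insert_self _ _)
    have hs' : ∀ q ∈ s, q.Prime := fun q hq => hs q (mem_insert_of_mem hq)
    rw [prod_insert hps, card_insert_of_notMem hps, pow_succ']
    have hcop : Nat.Coprime p (∏ q ∈ s, q) := by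
      apply Nat.Coprime.prod_right
      intro q hq
      rw [Nat.coprime_primes hp (hs' q hq)]
      rintro rfl
      exact hps hq
    refine (R_mul F p _ hp.pos (prod_pos fun q hq => (hs' q hq).pos) hcop).trans ?_
    exact Nat.mul_le_mul (R_prime F hF p hp) (ih hs')

/-- the constant for squarefree moduli -/
noncomputable def C (F : ℤ[X]) : ℝ := (K F : ℝ) ^ (K F ^ 2 + 1)

theorem C_pos (F : ℤ[X]) : 0 < C F := by
  unfold C K
  positivity

theorem R_squarefree (F : ℤ[X]) (hF : 0 < F.leadingCoeff) (a : ℕ) (ha : Squarefree a) :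
    (R F a : ℝ) ≤ C F * Real.sqrt a := by
  classical
  have hprod := Nat.prod_primeFactors_of_squarefree ha
  set s := a.primeFactors with hs
  have hsp : ∀ p ∈ s, p.Prime := fun p hp => Nat.prime_of_mem_primeFactors hp
  have hK1 : 1 ≤ K F := by unfold K; omega
  have hK1r : (1 : ℝ) ≤ K F := by exact_mod_cast hK1
  have h1 : (R F a : ℝ) ≤ ∏ p ∈ s, (K F : ℝ) := by
    rw [prod_const]
    have := R_prod F hF s hsp
    rw [hprod] at this
    exact_mod_cast this
  have h2 : ∏ p ∈ s, (K F : ℝ) ≤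
      ∏ p ∈ s, ((if p ≤ K F ^ 2 then (K F : ℝ) else 1) * Real.sqrt p) := by
    apply prod_le_prod
    · intro p _
      positivity
    · intro p hp
      have hp1 : (1 : ℝ) ≤ Real.sqrt p := by
        rw [Real.one_le_sqrt]
        exact_mod_cast (hsp p hp).one_lt.le
      split_ifs with h
      · nlinarith
      · rw [one_mul]
        apply Real.le_sqrt_of_sq_le
        have : K F ^ 2 ≤ p := by omega
        exact_mod_cast this
  have h3 : ∏ p ∈ s, ((if p ≤ K F ^ 2 then (K F : ℝ) else 1) * Real.sqrt p) =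
      (∏ p ∈ s, (if p ≤ K F ^ 2 then (K F : ℝ) else 1)) * Real.sqrt a := by
    rw [prod_mul_distrib]
    congr 1
    rw [← hprod]
    push_cast
    have key : ∀ t : Finset ℕ, ∏ p ∈ t, Real.sqrt (p : ℝ) = Real.sqrt (∏ p ∈ t, (p : ℝ)) := by
      intro t
      induction t using Finset.induction_on with
      | empty => simp
      | insert q t hq ih =>
        rw [prod_insert hq, prod_insert hq, ih, Real.sqrt_mul (Nat.cast_nonneg q)]
    exact key s
  have h4 : ∏ p ∈ s, (if p ≤ K F ^ 2 then (K F : ℝ) else 1) ≤ C F := by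
    rw [← prod_filter, prod_const]
    unfold C
    apply pow_le_pow_right₀ hK1r
    calc (s.filter (fun p => p ≤ K F ^ 2)).card ≤ (range (K F ^ 2 + 1)).card := by
          apply card_le_card
          intro p hp
          rw [mem_filter] at hp
          rw [mem_range]
          omega
      _ = _ := card_range _
  calc (R F a : ℝ) ≤ _ := h1
    _ ≤ _ := h2
    _ = _ := h3
    _ ≤ C F * Real.sqrt a := mul_le_mul_of_nonneg_right h4 (Real.sqrt_nonneg _)

theorem count_le (F : ℤ[X]) (m N : ℕ) (hm : 1 ≤ m) :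
    ((Icc 1 N).filter (fun x : ℕ => (m : ℤ) ∣ F.eval (x : ℤ))).card ≤ (N / m + 1) * R F m := by
  unfold R
  rw [← card_range (N / m + 1), ← card_product]
  apply card_le_card_of_injOn (fun x => (x / m, x % m))
  · intro x hx
    rw [mem_coe, mem_filter, mem_Icc] at hx
    rw [mem_coe, mem_product, mem_range, mem_filter, mem_range]
    exact ⟨Nat.lt_succ_of_le (Nat.div_le_div_right hx.1.2), Nat.mod_lt _ hm,
      eval_mod F m _ _ (Nat.mod_modEq x m).symm hx.2⟩
  · intro x _ y _ hxy
    simp only [Prod.mk.injEq] at hxy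
    rw [← Nat.div_add_mod x m, ← Nat.div_add_mod y m, hxy.1, hxy.2]

/-- The weights. -/
theorem weights (F : ℤ[X]) (hF : 0 < F.leadingCoeff) : ∃ w : ℕ → ℝ, Summable w ∧ (∀ n, 0 ≤ w n) ∧
    ∀ n N : ℕ, 1 ≤ n → n ≤ N →
      (((Icc 1 N).filter (fun x : ℕ => (n : ℤ) ∣ F.eval (x : ℤ))).card : ℝ) * ((N : ℝ) / n) ≤
        (N : ℝ) ^ 2 * w n := by
  have hex := fun n => Nat.sq_mul_squarefree n
  choose A B hAB hA using hex
  have hinj : Function.Injective (fun n => (A n, B n)) := by
    intro m n h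
    simp only [Prod.mk.injEq] at h
    rw [← hAB m, ← hAB n, h.1, h.2]
  have h32 : Summable (fun n : ℕ => (n : ℝ) ^ (-(3 / 2) : ℝ)) :=
    Real.summable_nat_rpow.2 (by norm_num)
  have h2 : Summable (fun n : ℕ => (n : ℝ) ^ (-2 : ℝ)) := Real.summable_nat_rpow.2 (by norm_num)
  have hs := h32.mul_of_nonneg h2 (fun n => by positivity) (fun n => by positivity)
  have hs2 := (hs.comp_injective hinj).mul_left (2 * C F)
  refine ⟨_, hs2, ?_, ?_⟩
  · intro n
    have := C_pos F
    simp only [Function.comp]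
    positivity
  · intro n N hn hnN
    simp only [Function.comp]
    set a := A n with ha
    set b := B n with hb
    have hab : b ^ 2 * a = n := hAB n
    have ha1 : 1 ≤ a := by
      rcases Nat.eq_zero_or_pos a with h0 | h0
      · rw [h0] at hab
        omega
      · exact h0
    have hb1 : 1 ≤ b := by
      rcases Nat.eq_zero_or_pos b with h0 | h0
      · rw [h0] at hab
        omega
      · exact h0
    have han : a ≤ n := by
      rw [← hab]
      exact Nat.le_mul_of_pos_left a (by positivity)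
    have hN1 : (0 : ℝ) < N := by exact_mod_cast (by omega : 0 < N)
    have ha0 : (0 : ℝ) < a := by exact_mod_cast ha1
    have hb0 : (0 : ℝ) < b := by exact_mod_cast hb1
    have h3 : (((Icc 1 N).filter (fun x : ℕ => (n : ℤ) ∣ F.eval (x : ℤ))).card : ℝ) ≤
        2 * (N / a) * (C F * Real.sqrt a) := by
      have h4 : ((Icc 1 N).filter (fun x : ℕ => (n : ℤ) ∣ F.eval (x : ℤ))).card ≤
          ((Icc 1 N).filter (fun x : ℕ => (a : ℤ) ∣ F.eval (x : ℤ))).card := by
        apply card_le_card
        intro x hx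
        rw [mem_filter] at hx ⊢
        refine ⟨hx.1, dvd_trans ?_ hx.2⟩
        rw [← hab]
        push_cast
        exact Dvd.intro_left _ rfl
      have h5 := h4.trans (count_le F a N ha1)
      have h6 : (((Icc 1 N).filter (fun x : ℕ => (n : ℤ) ∣ F.eval (x : ℤ))).card : ℝ) ≤
          (((N / a + 1 : ℕ) : ℝ)) * R F a := by exact_mod_cast h5
      have h7 : (((N / a + 1 : ℕ) : ℝ)) ≤ 2 * (N / a) := by
        push_cast
        have h8 : ((N / a : ℕ) : ℝ) ≤ (N : ℝ) / a := Nat.cast_div_le
        have h9 : (1 : ℝ) ≤ (N : ℝ) / a := by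
          rw [one_le_div ha0]
          exact_mod_cast han.trans hnN
        linarith
      refine h6.trans ?_
      exact mul_le_mul h7 (R_squarefree F hF a (hA n)) (Nat.cast_nonneg _) (by positivity)
    have hn0 : (n : ℝ) = b ^ 2 * a := by exact_mod_cast hab.symm
    have hsq : Real.sqrt a = (a : ℝ) ^ (1 / 2 : ℝ) := Real.sqrt_eq_rpow _
    have e1 : (a : ℝ) ^ (-(3 / 2) : ℝ) * ((a : ℝ) * a) = (a : ℝ) ^ (1 / 2 : ℝ) := by
      have : (a : ℝ) * a = (a : ℝ) ^ (2 : ℝ) := by
        rw [show (2 : ℝ) = ((2 : ℕ) : ℝ) by norm_num, Real.rpow_natCast]; ring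
      rw [this, ← Real.rpow_add ha0]
      norm_num
    have e2 : (b : ℝ) ^ (-2 : ℝ) * (b : ℝ) ^ 2 = 1 := by
      rw [show (-2 : ℝ) = -((2 : ℕ) : ℝ) by norm_num, Real.rpow_neg hb0.le, Real.rpow_natCast]
      field_simp
    calc (((Icc 1 N).filter (fun x : ℕ => (n : ℤ) ∣ F.eval (x : ℤ))).card : ℝ) * ((N : ℝ) / n)
        ≤ 2 * (N / a) * (C F * Real.sqrt a) * ((N : ℝ) / n) :=
          mul_le_mul_of_nonneg_right h3 (by positivity)
      _ = (N : ℝ) ^ 2 * (2 * C F * ((a : ℝ) ^ (-(3 / 2) : ℝ) * (b : ℝ) ^ (-2 : ℝ))) := by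
          rw [hsq, ← e1, hn0]
          have e3 : (b : ℝ) ^ (-2 : ℝ) = 1 / (b : ℝ) ^ 2 := by
            field_simp
            linarith [e2]
          rw [e3]
          field_simp

end Pool.Agent.R327.Vis
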