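import Pool.Agent.R327.VisB
import Pool.Agent.R327.VisC

set_option autoImplicit false

/-!
# Counting the invisible points
-/

namespace Pool.Agent.R327.Vis

open Filter Topology Polynomial Finset

open Classical in
/-- A set in which every gap occurs finitely often has density zero. -/
theorem density_zero (A : Set ℕ) (hA : ∀ g : ℕ, 1 ≤ g → {a : ℕ | a ∈ A ∧ a + g ∈ A}.Finite) :
    Tendsto (fun N : ℕ => (((Icc 1 N).filter (fun a => a ∈ A)).card : ℝ) / N) atTop (𝓝 0) := by
  rw [Metric.tendsto_atTop]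
  intro ε hε
  obtain ⟨G, hG⟩ : ∃ G : ℕ, 2 / ε < G := exists_nat_gt _
  have hG0 : (0 : ℝ) < G := lt_trans (by positivity) hG
  have hG1 : 1 ≤ G := by
    have : (0 : ℝ) < (G : ℝ) := hG0
    exact_mod_cast this
  have hfin : (⋃ g ∈ Finset.Icc 1 G, {a : ℕ | a ∈ A ∧ a + g ∈ A}).Finite := by
    apply Set.Finite.biUnion (Finset.finite_toSet _)
    intro g hg
    have hg' : g ∈ Finset.Icc 1 G := hg
    exact hA g (Finset.mem_Icc.1 hg').1
  obtain ⟨M, hM⟩ := hfin.bddAbove
  obtain ⟨N1, hN1⟩ : ∃ N1 : ℕ, 2 * ((M : ℝ) + 2) / ε < N1 := exists_nat_gt _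
  refine ⟨N1, ?_⟩
  intro N hN
  have hNr : (N1 : ℝ) ≤ N := by exact_mod_cast hN
  have hN0 : (0 : ℝ) < N := lt_of_lt_of_le (lt_trans (by positivity) hN1) hNr
  rw [Real.dist_eq, sub_zero, abs_of_nonneg (by positivity), div_lt_iff₀ hN0]
  have h1 : ((Icc 1 N).filter (fun a => a ∈ A)).card ≤ (M + 1) + (N / G + 1) := by
    have h2 : (Icc 1 N).filter (fun a => a ∈ A) ⊆
        range (M + 1) ∪ (Icc 1 N).filter (fun a => a ∈ A ∧ M < a) := by
      intro a ha
      rw [mem_filter] at ha
      rw [mem_union, mem_range, mem_filter]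
      by_cases h : a < M + 1
      · exact Or.inl h
      · exact Or.inr ⟨ha.1, ha.2, by omega⟩
    refine (card_le_card h2).trans ((card_union_le _ _).trans ?_)
    rw [card_range]
    apply Nat.add_le_add_left
    rw [← card_range (N / G + 1)]
    apply card_le_card_of_injOn (fun a => a / G)
    · intro a ha
      rw [mem_coe, mem_filter, mem_Icc] at ha
      rw [mem_coe, mem_range]
      exact Nat.lt_succ_of_le (Nat.div_le_div_right ha.1.2)
    · have hlt : ∀ a b : ℕ, a ∈ A → b ∈ A → M < a → a < b → a / G ≠ b / G := by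
        intro a b ha hb hMa hab heq
        have h3 : b - a ≤ G := by
          have e1 := Nat.div_add_mod a G
          have e2 := Nat.div_add_mod b G
          have e3 := Nat.mod_lt b (show G > 0 by omega)
          rw [heq] at e1
          omega
        have h4 : a ∈ (⋃ g ∈ Finset.Icc 1 G, {a : ℕ | a ∈ A ∧ a + g ∈ A}) := by
          rw [Set.mem_iUnion₂]
          refine ⟨b - a, Finset.mem_Icc.2 ⟨by omega, h3⟩, ha, ?_⟩
          have : a + (b - a) = b := by omega
          rw [this]
          exact hb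
        have := hM h4
        omega
      intro a ha b hb hab
      rw [mem_coe, mem_filter] at ha hb
      rcases lt_trichotomy a b with h | h | h
      · exact absurd hab (hlt a b ha.2.1 hb.2.1 ha.2.2 h)
      · exact h
      · exact absurd hab.symm (hlt b a hb.2.1 ha.2.1 hb.2.2 h)
  have h2 : (((Icc 1 N).filter (fun a => a ∈ A)).card : ℝ) ≤ (M : ℝ) + 2 + N / G := by
    have h3 : (((Icc 1 N).filter (fun a => a ∈ A)).card : ℝ) ≤ (((M + 1) + (N / G + 1) : ℕ) : ℝ) := by
      exact_mod_cast h1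
    push_cast at h3
    have h4 : ((N / G : ℕ) : ℝ) ≤ (N : ℝ) / G := Nat.cast_div_le
    linarith
  have h3 : (N : ℝ) / G < ε / 2 * N := by
    rw [div_lt_iff₀ hG0]
    have : 1 < ε / 2 * G := by
      rw [div_lt_iff₀ hε] at hG
      linarith
    nlinarith
  have h4 : (M : ℝ) + 2 < ε / 2 * N := by
    rw [div_lt_iff₀ hε] at hN1
    nlinarith
  linarith

/-- `F` is eventually positive and larger than all its previous values. -/
theorem mono (F : ℤ[X]) (hlc : 0 < F.leadingCoeff) (hd : 2 ≤ F.natDegree) :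
    ∃ a0 : ℕ, ∀ a : ℕ, a0 ≤ a → 0 < F.eval (a : ℤ) ∧ ∀ u : ℕ, u < a →
      F.eval (u : ℤ) < F.eval (a : ℤ) := by
  have hder : Tendsto (fun x : ℝ => (derivative (FR F)).eval x) atTop atTop := by
    have hnd : (derivative (FR F)).natDegree = F.natDegree - 1 := by
      rw [natDegree_derivative, FR_natDegree]
    apply Polynomial.tendsto_atTop_of_leadingCoeff_nonneg
    · rw [← natDegree_pos_iff_degree_pos, hnd]
      omega
    · rw [leadingCoeff, hnd, coeff_derivative]
      have : F.natDegree - 1 + 1 = F.natDegree := by omega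
      rw [this]
      have h2 : (FR F).coeff F.natDegree = (F.leadingCoeff : ℝ) := by
        rw [← FR_lc, leadingCoeff, FR_natDegree]
      rw [h2]
      have : (0 : ℝ) < F.leadingCoeff := by exact_mod_cast hlc
      positivity
  obtain ⟨x0, hx0⟩ := eventually_atTop.1 (hder.eventually (eventually_gt_atTop (0 : ℝ)))
  have hmono : StrictMonoOn (fun x => (FR F).eval x) (Set.Ici x0) := by
    apply strictMonoOn_of_deriv_pos (convex_Ici x0) (FR F).continuous.continuousOn
    intro x hx
    rw [interior_Ici] at hx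
    rw [Polynomial.deriv]
    exact hx0 x (le_of_lt hx)
  obtain ⟨B, hB⟩ : ∃ B : ℕ, x0 ≤ B := exists_nat_ge x0
  obtain ⟨M, hM⟩ : ∃ M : ℤ, ∀ n : ℕ, n ≤ B → F.eval (n : ℤ) ≤ M := by
    refine ⟨∑ n ∈ Finset.range (B + 1), |F.eval (n : ℤ)|, ?_⟩
    intro n hn
    have h1 : |F.eval (n : ℤ)| ≤ ∑ n ∈ Finset.range (B + 1), |F.eval (n : ℤ)| :=
      Finset.single_le_sum (f := fun n : ℕ => |F.eval (n : ℤ)|) (fun i _ => abs_nonneg _)
        (Finset.mem_range.2 (by omega))
    exact (le_abs_self _).trans h1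
  obtain ⟨a1, ha1⟩ := eventually_atTop.1
    ((F_tendsto F hlc (by omega)).eventually (eventually_gt_atTop (max M 0)))
  refine ⟨a1, ?_⟩
  intro a ha
  have h1 := ha1 a ha
  refine ⟨(le_max_right _ _).trans_lt h1, ?_⟩
  intro u hu
  by_cases huB : u ≤ B
  · exact (hM u huB).trans_lt ((le_max_left _ _).trans_lt h1)
  · have h2 : x0 ≤ (u : ℝ) := hB.trans (by exact_mod_cast (by omega : B ≤ u))
    have h3 : (u : ℝ) < a := by exact_mod_cast hu
    have h4 := hmono (Set.mem_Ici.2 h2) (Set.mem_Ici.2 (h2.trans h3.le)) h3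
    simp only [FR_eval] at h4
    exact_mod_cast h4

end Pool.Agent.R327.Vis
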